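import Mathlib

/-!
# A divisibility which fails
-/

set_option autoImplicit false

namespace Pool.Agent.Q34.WR

theorem not_dvd (a b B N : ℕ) (ha : 1 ≤ a) (hN : 1 ≤ N) (hlarge : (N : ℤ) ^ 2 < 3 ^ a) :
    ¬ ((((3 : ℤ) ^ a) ^ 6 - 1) ^ 3 ∣ ((3 : ℤ) ^ b) ^ B * ((((3 : ℤ) ^ a) ^ (3 * N) - 1) ^ 2 *
      (((3 : ℤ) ^ a) ^ 42 * (((3 : ℤ) ^ a) ^ 8 - 1) ^ 3))) := by
  intro hdvd
  obtain ⟨q, hq⟩ : ∃ q : ℤ, q = 3 ^ a := ⟨_, rfl⟩
  rw [← hq] at hdvd hlarge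
  obtain ⟨q', hq'⟩ : ∃ q' : ℤ, q = 3 * q' := by
    refine ⟨3 ^ (a - 1), ?_⟩
    rw [hq, ← pow_succ', Nat.sub_add_cancel ha]
  have hqpos : 0 < q := by
    rw [hq]
    positivity
  obtain ⟨φ, hφ⟩ : ∃ φ : ℤ, φ = q ^ 2 + q + 1 := ⟨_, rfl⟩
  have hφ0 : φ ≠ 0 := by
    rw [hφ]
    positivity
  have h3 : IsCoprime φ 3 := ⟨1, -(3 * q' ^ 2 + q'), by rw [hφ, hq']; ring⟩
  have hcq : IsCoprime φ q := ⟨1, -(q + 1), by rw [hφ]; ring⟩
  have hcy : IsCoprime φ (((3 : ℤ) ^ b) ^ B) := (h3.pow_right).pow_right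
  have hc1 : IsCoprime φ (q - 1) := by
    have h4 : IsCoprime φ ((q - 1) * (-(q + 2)) + φ * 1) := by
      have h5 : (q - 1) * (-(q + 2)) + φ * 1 = 3 := by
        rw [hφ]
        ring
      rw [h5]
      exact h3
    exact (h4.of_add_mul_left_right).of_mul_right_left
  have hc8 : IsCoprime φ (q ^ 8 - 1) := by
    have h4 : IsCoprime φ ((q ^ 8 - 1) * (q - 1) +
        φ * (1 - (q - 1) * ((q - 1) * (q ^ 5 + q ^ 2) + 1))) := by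
      have h5 : (q ^ 8 - 1) * (q - 1) +
        φ * (1 - (q - 1) * ((q - 1) * (q ^ 5 + q ^ 2) + 1)) = 3 := by
        rw [hφ]
        ring
      rw [h5]
      exact h3
    exact (h4.of_add_mul_left_right).of_mul_right_left
  have h6 : φ ∣ q ^ 6 - 1 := ⟨(q - 1) * (q ^ 3 + 1), by rw [hφ]; ring⟩
  have h7 := (pow_dvd_pow_of_dvd h6 3).trans hdvd
  have h8 : φ ^ 3 ∣ (q ^ (3 * N) - 1) ^ 2 := by
    have h9 := (IsCoprime.dvd_of_dvd_mul_left (hcy.pow_left (m := 3)) h7)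
    refine IsCoprime.dvd_of_dvd_mul_right ?_ h9
    exact ((hcq.pow_right (n := 42)).mul_right (hc8.pow_right (n := 3))).pow_left
  have h9 : q ^ (3 * N) - 1 = φ * ((q - 1) * ∑ i ∈ Finset.range N, (q ^ 3) ^ i) := by
    have h10 := mul_geom_sum (q ^ 3) N
    rw [← pow_mul] at h10
    rw [← h10, hφ]
    ring
  rw [h9, mul_pow, pow_succ φ 2] at h8
  have h10 := (mul_dvd_mul_iff_left (pow_ne_zero 2 hφ0)).1 h8
  have h11 : φ ∣ (∑ i ∈ Finset.range N, (q ^ 3) ^ i) ^ 2 := by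
    rw [mul_pow] at h10
    exact IsCoprime.dvd_of_dvd_mul_left (hc1.pow_right) h10
  have h12 : φ ∣ (∑ i ∈ Finset.range N, (q ^ 3) ^ i) - N := by
    have h13 : (∑ i ∈ Finset.range N, (q ^ 3) ^ i) - (N : ℤ) =
        ∑ i ∈ Finset.range N, ((q ^ 3) ^ i - 1 ^ i) := by
      rw [Finset.sum_sub_distrib]
      simp
    rw [h13]
    refine Finset.dvd_sum fun i _ => ?_
    refine Dvd.dvd.trans ⟨q - 1, ?_⟩ (sub_dvd_pow_sub_pow (q ^ 3) 1 i)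
    rw [hφ]
    ring
  have h14 : φ ∣ (N : ℤ) ^ 2 := by
    obtain ⟨S, hS⟩ : ∃ S : ℤ, S = ∑ i ∈ Finset.range N, (q ^ 3) ^ i := ⟨_, rfl⟩
    rw [← hS] at h11 h12
    have h15 : (N : ℤ) ^ 2 = S ^ 2 - (S - N) * (S + N) := by ring
    rw [h15]
    exact dvd_sub h11 (h12.mul_right _)
  have h16 : 0 < (N : ℤ) ^ 2 := by
    have : (0 : ℤ) < N := by exact_mod_cast hN
    positivity
  have h17 := Int.le_of_dvd h16 h14
  rw [hφ] at h17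
  nlinarith [sq_nonneg q]

end Pool.Agent.Q34.WR
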