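import Pool.Agent.Q34.WR.Lev

/-!
# The point counts of the level sets
-/

set_option autoImplicit false

namespace Pool.Agent.Q34.WR

open MvPolynomial Pool.Agent.Helper449.MST

/-- the field with `q_j` elements -/
def Kap (j : ℕ) : Type := ↥{z : K | z ^ q j = z}

theorem one_lt_q (j : ℕ) : 1 < q j := by
  unfold q
  exact Nat.one_lt_pow (Nat.mul_pos (by norm_num) (Nat.factorial_pos j)).ne' (by norm_num)

noncomputable instance (j : ℕ) : Fintype (Kap j) := (pts_finite_aux (q j) (one_lt_q j)).fintype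

noncomputable instance (j : ℕ) : Zero (Kap j) := ⟨⟨0, by
  change (0 : K) ^ q j = 0
  exact zero_pow (by have := one_lt_q j; omega)⟩⟩

theorem Kap_zero (j : ℕ) : ((0 : Kap j).1 : K) = 0 := rfl

theorem card_Kap (j : ℕ) : Fintype.card (Kap j) = q j := by
  rw [← Nat.card_eq_fintype_card]
  exact card_fixed (54 * j.factorial) (Nat.mul_pos (by norm_num) (Nat.factorial_pos j))

/-- the torsor of a finite sequence -/
noncomputable def tor {j n : ℕ} (x : Fin n → Kap j) : ℕ →₀ K := ofFin fun i => (x i).1

theorem tor_apply {j n : ℕ} (x : Fin n → Kap j) (i : ℕ) :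
    tor x i = if h : i < n then (x ⟨i, h⟩).1 else 0 := rfl

theorem mD_append {j n : ℕ} (x : Fin (6 * n) → Kap j) (z : Fin 6 → Kap j) (l : Fin 3) :
    mD (tor (Fin.append x z)) l =
      open Classical in if (fun t : Fin 2 => z (finProdFinEquiv (t, l))) = 0 then mD (tor x) l
        else n + 1 := by
  have hl := l.2
  have h1 : ∀ i, i < 6 * n → tor (Fin.append x z) i = tor x i := by
    intro i hi
    rw [tor_apply, tor_apply, dif_pos hi, dif_pos (by omega)]
    congr 1
    exact Fin.append_left x z ⟨i, hi⟩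
  have h2 : ∀ i, 6 * n ≤ i → tor x i = 0 := by
    intro i hi
    rw [tor_apply, dif_neg (by omega)]
  have h3 : ∀ (t : Fin 2), tor (Fin.append x z) (6 * n + (3 * t + l)) =
      (z (finProdFinEquiv (t, l))).1 := by
    intro t
    have ht := t.2
    rw [tor_apply, dif_pos (by omega)]
    congr 1
    have h4 : (⟨6 * n + (3 * t + l), by omega⟩ : Fin (6 * n + 6)) =
        Fin.natAdd (6 * n) (finProdFinEquiv (t, l)) := by
      apply Fin.ext
      simp only [finProdFinEquiv_apply_val, Fin.val_natAdd]
      omega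
    rw [h4]
    exact Fin.append_right x z _
  have h5 : ∀ i, 6 * (n + 1) ≤ i → tor (Fin.append x z) i = 0 := by
    intro i hi
    rw [tor_apply, dif_neg (by omega)]
  have h6 : ∀ i, i % 3 = (l : ℕ) → 6 * n ≤ i → i < 6 * (n + 1) →
      ∃ t : Fin 2, i = 6 * n + (3 * t + l) := by
    intro i hi hn hn'
    refine ⟨⟨(i - 6 * n) / 3, by omega⟩, ?_⟩
    simp only
    omega
  split_ifs with hz
  · have h7 : ∀ i, i % 3 = (l : ℕ) → tor (Fin.append x z) i = tor x i := by
      intro i hi
      by_cases hn : i < 6 * n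
      · exact h1 i hn
      · rw [h2 i (by omega)]
        by_cases hn' : i < 6 * (n + 1)
        · obtain ⟨t, ht⟩ := h6 i hi (by omega) hn'
          rw [ht, h3, congrFun hz t]
          rfl
        · exact h5 i (by omega)
    apply le_antisymm
    · rw [mD_le_iff']
      intro i hi hM
      rw [h7 i hi]
      exact (mD_le_iff' _ l _).1 le_rfl i hi hM
    · rw [mD_le_iff']
      intro i hi hM
      rw [← h7 i hi]
      exact (mD_le_iff' _ l _).1 le_rfl i hi hM
  · apply le_antisymm
    · rw [mD_le_iff']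
      intro i _ hM
      exact h5 i hM
    · by_contra hcon
      apply hz
      funext t
      have h8 := (mD_le_iff' (tor (Fin.append x z)) l n).1 (by omega) (6 * n + (3 * t + l))
        (by omega) (by omega)
      rw [h3] at h8
      exact Subtype.ext h8

theorem sum_two (j : ℕ) (A B : ℝ) :
    (∑ u : Fin 2 → Kap j, open Classical in if u = 0 then A else B) =
      A + ((q j : ℝ) ^ 2 - 1) * B := by
  classical
  have h1 : ∀ u : Fin 2 → Kap j, (if u = 0 then A else B) = B + if u = 0 then A - B else 0 := by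
    intro u
    split_ifs <;> ring
  rw [Finset.sum_congr rfl fun u _ => h1 u, Finset.sum_add_distrib, Finset.sum_const,
    Finset.sum_ite_eq', if_pos (Finset.mem_univ _), Finset.card_univ, Fintype.card_fun, card_Kap,
    Fintype.card_fin, nsmul_eq_mul]
  push_cast
  ring

theorem sum_six (j : ℕ) (g : Fin 3 → (Fin 2 → Kap j) → ℝ) :
    ∑ z : Fin 6 → Kap j, ∏ l, g l (fun t => z (finProdFinEquiv (t, l))) =
      ∏ l, ∑ u, g l u := by
  classical
  let e : (Fin 6 → Kap j) ≃ (Fin 3 → Fin 2 → Kap j) :=
    { toFun := fun z l t => z (finProdFinEquiv (t, l))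
      invFun := fun w i => w (finProdFinEquiv.symm i : Fin 2 × Fin 3).2
        (finProdFinEquiv.symm i : Fin 2 × Fin 3).1
      left_inv := by
        intro z
        funext i
        simp only [Prod.mk.eta, Equiv.apply_symm_apply]
      right_inv := by
        intro w
        funext l t
        simp only [Equiv.symm_apply_apply] }
  rw [Finset.prod_univ_sum, Fintype.piFinset_univ]
  exact Fintype.sum_equiv e _ _ fun z => rfl

theorem sum_pattern (j n : ℕ) : ∀ h : Fin 3 → ℕ → ℝ,
    ∑ x : Fin (6 * n) → Kap j, ∏ l, h l (mD (tor x) l) =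
      ∏ l, (h l 0 + ∑ m ∈ Finset.range n,
        ((q j : ℝ) ^ (2 * (m + 1)) - (q j : ℝ) ^ (2 * m)) * h l (m + 1)) := by
  classical
  induction n with
  | zero =>
    intro h
    have h0 : ∀ x : Fin (6 * 0) → Kap j, ∀ l, mD (tor x) l = 0 := by
      intro x l
      have h1 : mD (tor x) l ≤ 0 := by
        rw [mD_le_iff']
        intro i _ _
        rw [tor_apply, dif_neg (by omega)]
      omega
    have h2 : (Finset.univ : Finset (Fin (6 * 0) → Kap j)).card = 1 := by
      rw [Finset.card_univ, Fintype.card_fun]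
      simp
    simp only [h0, Finset.sum_const, h2, one_smul, Finset.range_zero, Finset.sum_empty, add_zero]
  | succ n ih =>
    intro h
    have e1 : ∑ x : Fin (6 * (n + 1)) → Kap j, ∏ l, h l (mD (tor x) l) =
        ∑ p : (Fin (6 * n) → Kap j) × (Fin 6 → Kap j),
          ∏ l, h l (mD (tor (Fin.append p.1 p.2)) l) :=
      (Fintype.sum_equiv (Fin.appendEquiv (6 * n) 6) _ _ fun p => rfl).symm
    rw [e1, Fintype.sum_prod_type]
    have e2 : ∀ x : Fin (6 * n) → Kap j,
        ∑ z : Fin 6 → Kap j, ∏ l, h l (mD (tor (Fin.append x z)) l) =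
        ∏ l, (h l (mD (tor x) l) + ((q j : ℝ) ^ 2 - 1) * h l (n + 1)) := by
      intro x
      have e3 : ∀ z : Fin 6 → Kap j, ∏ l, h l (mD (tor (Fin.append x z)) l) =
          ∏ l, (fun (l : Fin 3) (u : Fin 2 → Kap j) =>
            if u = 0 then h l (mD (tor x) l) else h l (n + 1)) l
            (fun t => z (finProdFinEquiv (t, l))) := by
        intro z
        refine Finset.prod_congr rfl fun l _ => ?_
        rw [mD_append]
        simp only
        split_ifs <;> rfl
      rw [Finset.sum_congr rfl fun z _ => e3 z]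
      refine (sum_six j (fun (l : Fin 3) (u : Fin 2 → Kap j) =>
            if u = 0 then h l (mD (tor x) l) else h l (n + 1))).trans ?_
      refine Finset.prod_congr rfl fun l _ => ?_
      have := sum_two j (h l (mD (tor x) l)) (h l (n + 1))
      exact this
    simp only
    rw [Finset.sum_congr rfl fun x _ => e2 x,
      ih fun l m => h l m + ((q j : ℝ) ^ 2 - 1) * h l (n + 1)]
    refine Finset.prod_congr rfl fun l _ => ?_
    have e5 : ∑ m ∈ Finset.range n, ((q j : ℝ) ^ (2 * (m + 1)) - (q j : ℝ) ^ (2 * m)) *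
        (h l (m + 1) + ((q j : ℝ) ^ 2 - 1) * h l (n + 1)) =
        ∑ m ∈ Finset.range n, ((q j : ℝ) ^ (2 * (m + 1)) - (q j : ℝ) ^ (2 * m)) * h l (m + 1) +
        (∑ m ∈ Finset.range n, ((q j : ℝ) ^ (2 * (m + 1)) - (q j : ℝ) ^ (2 * m))) *
          (((q j : ℝ) ^ 2 - 1) * h l (n + 1)) := by
      rw [Finset.sum_mul, ← Finset.sum_add_distrib]
      exact Finset.sum_congr rfl fun m _ => by ring
    rw [e5, Finset.sum_range_succ]
    have h4 : ∑ m ∈ Finset.range n, ((q j : ℝ) ^ (2 * (m + 1)) - (q j : ℝ) ^ (2 * m)) =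
        (q j : ℝ) ^ (2 * n) - 1 := by
      have := Finset.sum_range_sub (fun m => (q j : ℝ) ^ (2 * m)) n
      rw [this, mul_zero, pow_zero]
    rw [h4]
    have h5 : (q j : ℝ) ^ (2 * (n + 1)) = (q j : ℝ) ^ (2 * n) * (q j : ℝ) ^ 2 := by
      rw [mul_add, pow_add]
    rw [h5]
    ring

end Pool.Agent.Q34.WR
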