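import Pool.Agent.Q34.WR.Lim
import Pool.Agent.Q34.WR.Ari

/-!
# Poles of the stringy motive
-/

set_option autoImplicit false

namespace Pool.Agent.Q34.WR

open MvPolynomial Pool.Agent.Helper449.MST

/-- The partial sum `∑_{t = 1}^n L^{-t m / 27} x` of the series `x / (L^{m / 27} - 1)`. -/
noncomputable def geo (m n : ℕ) (x : FreeAbelianGroup Gen) : FreeAbelianGroup Gen :=
  ∑ t ∈ Finset.range n, shift (-(((t + 1) * m : ℕ) : ℤ)) x

/-- The limit of `s`, in the completion for the dimension filtration of the quotient by `R`, is a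
finite sum `∑_i {Z_i} / (L^{a_i} - 1)` with varieties `Z_i` (constructible subsets of affine
spaces) and `a_i = m_i / 27`, `m_i` a positive integer. -/
def WeaklyRational (R : AddSubgroup (FreeAbelianGroup Gen)) (s : ℕ → FreeAbelianGroup Gen) : Prop :=
  ∃ (k : ℕ) (Z : Fin k → Gen) (m : Fin k → ℕ), (∀ i, (Z i).b = 0 ∧ 1 ≤ m i) ∧
    ∀ e : ℤ, ∃ n₀, ∀ n ≥ n₀,
      s n - ∑ i, geo (m i) n (FreeAbelianGroup.of (Z i)) ∈ R ⊔ Fil e

/-- The limit of `s` is a finite sum of terms `x_i / ∏_{m ∈ M_i} (L^{m / 27} - 1)`, where `x_i` is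
any element of the Grothendieck ring with `L⁻¹` and `L^{1/27}` adjoined and `M_i` is a list of at
most `r` positive integers. -/
def FracMod (r : ℕ) (R : AddSubgroup (FreeAbelianGroup Gen)) (s : ℕ → FreeAbelianGroup Gen) :
    Prop :=
  ∃ (k : ℕ) (x : Fin k → FreeAbelianGroup Gen) (M : Fin k → List ℕ),
    (∀ i, (M i).length ≤ r ∧ ∀ m ∈ M i, 1 ≤ m) ∧
    ∀ e : ℤ, ∃ n₀, ∀ n ≥ n₀,
      s n - ∑ i, (M i).foldr (fun m z => geo m n z) (x i) ∈ R ⊔ Fil e

theorem WeaklyRational.frac {R : AddSubgroup (FreeAbelianGroup Gen)}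
    {s : ℕ → FreeAbelianGroup Gen} (h : WeaklyRational R s) : FracMod 1 R s := by
  obtain ⟨k, Z, m, hm, h⟩ := h
  exact ⟨k, fun i => FreeAbelianGroup.of (Z i), fun i => [m i],
    fun i => ⟨le_rfl, fun m' hm' => by rw [List.mem_singleton.1 hm']; exact (hm i).2⟩, h⟩

theorem FracMod.mono {r r' : ℕ} (hr : r ≤ r') {R : AddSubgroup (FreeAbelianGroup Gen)}
    {s : ℕ → FreeAbelianGroup Gen} (h : FracMod r R s) : FracMod r' R s := by
  obtain ⟨k, x, M, hM, h⟩ := h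
  exact ⟨k, x, M, fun i => ⟨(hM i).1.trans hr, (hM i).2⟩, h⟩

theorem y_pos (j : ℕ) : 0 < y j := by
  unfold y
  positivity

theorem j_lt_y (j : ℕ) : j < y j := by
  unfold y
  have h1 : j ≤ 2 * j.factorial := by
    have := Nat.self_le_factorial j
    omega
  exact (Nat.lt_pow_self (by norm_num : 1 < 3)).trans_le (Nat.pow_le_pow_right (by norm_num) h1)

theorem y_pow (j : ℕ) : y j ^ 27 = q j := by
  unfold y q
  rw [← pow_mul]
  congr 1
  ring

theorem mu_of (j : ℕ) (g : Gen) :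
    mu j (FreeAbelianGroup.of g) = (cnt j g.S : ℝ) * (y j : ℝ) ^ g.b := by
  unfold mu
  rw [FreeAbelianGroup.lift_apply_of]

theorem mu_shift (j : ℕ) (b : ℤ) (x : FreeAbelianGroup Gen) :
    mu j (shift b x) = (y j : ℝ) ^ b * mu j x := by
  have hy : (y j : ℝ) ≠ 0 := by exact_mod_cast (y_pos j).ne'
  have h : (mu j).comp (shift b) = (AddMonoidHom.mulLeft ((y j : ℝ) ^ b)).comp (mu j) := by
    ext g
    simp only [AddMonoidHom.comp_apply, AddMonoidHom.coe_mulLeft, shift, mu,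
      FreeAbelianGroup.lift_apply_of]
    rw [zpow_add₀ hy]
    ring
  exact DFunLike.congr_fun h x

/-- the values of the point count measure are integers up to a power of `y_j`, and grow
polynomially -/
theorem mu_bound (x : FreeAbelianGroup Gen) : ∃ B : ℕ, ∀ j,
    |mu j x| ≤ (y j : ℝ) ^ B ∧ ∃ z : ℤ, mu j x * (y j : ℝ) ^ B = z := by
  have hmono : ∀ (x : FreeAbelianGroup Gen) (B B' : ℕ), B ≤ B' →
      (∀ j, |mu j x| ≤ (y j : ℝ) ^ B ∧ ∃ z : ℤ, mu j x * (y j : ℝ) ^ B = z) →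
      ∀ j, |mu j x| ≤ (y j : ℝ) ^ B' ∧ ∃ z : ℤ, mu j x * (y j : ℝ) ^ B' = z := by
    intro x B B' hB h j
    have h1 : (1 : ℝ) ≤ y j := by exact_mod_cast y_pos j
    refine ⟨(h j).1.trans (pow_le_pow_right₀ h1 hB), ?_⟩
    obtain ⟨z, hz⟩ := (h j).2
    refine ⟨z * (y j : ℤ) ^ (B' - B), ?_⟩
    push_cast
    rw [← hz, mul_assoc, ← pow_add, Nat.add_sub_cancel' hB]
  induction x using FreeAbelianGroup.induction_on with
  | zero => exact ⟨0, fun j => ⟨by rw [map_zero, abs_zero]; positivity, 0, by simp⟩⟩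
  | of g =>
    refine ⟨27 * g.n + g.b.natAbs, fun j => ?_⟩
    have hy0 : (0 : ℝ) < y j := by exact_mod_cast y_pos j
    have h1 : (1 : ℝ) ≤ y j := by exact_mod_cast y_pos j
    have h2 : (cnt j g.S : ℝ) ≤ (y j : ℝ) ^ (27 * g.n) := by
      have h3 : cnt j g.S ≤ q j ^ g.n := by
        rw [← cnt_univ g.n j]
        exact Set.ncard_le_ncard (fun x hx => ⟨Set.mem_univ _, hx.2⟩) (pts_finite j _)
      rw [← y_pow, ← pow_mul] at h3
      exact_mod_cast h3
    rw [mu_of]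
    constructor
    · rw [abs_of_nonneg (by positivity), pow_add]
      refine mul_le_mul h2 ?_ (by positivity) (by positivity)
      rw [← zpow_natCast]
      exact zpow_le_zpow_right₀ h1 (by omega)
    · obtain ⟨c, hc⟩ : ∃ c : ℕ, g.b + ((27 * g.n + g.b.natAbs : ℕ) : ℤ) = c :=
        ⟨(g.b + ((27 * g.n + g.b.natAbs : ℕ) : ℤ)).toNat, by omega⟩
      refine ⟨(cnt j g.S : ℤ) * (y j : ℤ) ^ c, ?_⟩
      rw [mul_assoc, ← zpow_natCast (y j : ℝ) (27 * g.n + g.b.natAbs), ← zpow_add₀ hy0.ne', hc,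
        zpow_natCast]
      push_cast
      rfl
  | neg g h =>
    obtain ⟨B, hB⟩ := h
    refine ⟨B, fun j => ⟨by rw [map_neg, abs_neg]; exact (hB j).1, ?_⟩⟩
    obtain ⟨z, hz⟩ := (hB j).2
    exact ⟨-z, by rw [map_neg, neg_mul, hz]; push_cast; rfl⟩
  | add x x' h h' =>
    obtain ⟨B, hB⟩ := h
    obtain ⟨B', hB'⟩ := h'
    have h1 := hmono x B (max B B') (le_max_left _ _) hB
    have h2 := hmono x' B' (max B B') (le_max_right _ _) hB'
    refine ⟨max B B' + 1, fun j => ?_⟩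
    have hy2 : (2 : ℝ) ≤ y j := by
      have : 2 ≤ y j := by
        unfold y
        calc 2 ≤ 3 ^ 1 := by norm_num
          _ ≤ 3 ^ (2 * j.factorial) := Nat.pow_le_pow_right (by norm_num) (by
            have := Nat.factorial_pos j
            omega)
      exact_mod_cast this
    constructor
    · rw [map_add]
      refine (abs_add_le _ _).trans ?_
      have h3 := (h1 j).1
      have h4 := (h2 j).1
      have h5 : (0 : ℝ) ≤ (y j : ℝ) ^ (max B B') := by positivity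
      rw [pow_succ]
      nlinarith
    · obtain ⟨z, hz⟩ := (h1 j).2
      obtain ⟨z', hz'⟩ := (h2 j).2
      refine ⟨(z + z') * y j, ?_⟩
      push_cast
      rw [map_add, pow_succ, ← hz, ← hz']
      ring

theorem mu_geo (j m n : ℕ) (hm : 1 ≤ m) (x : FreeAbelianGroup Gen) :
    mu j (geo m n x) = mu j x * ((1 - ((y j : ℝ) ^ m)⁻¹ ^ n) / ((y j : ℝ) ^ m - 1)) := by
  have hy1 : (1 : ℝ) < (y j : ℝ) ^ m := by
    have h1 : 1 < y j := by
      unfold y
      exact Nat.one_lt_pow (by have := Nat.factorial_pos j; omega) (by norm_num)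
    exact one_lt_pow₀ (by exact_mod_cast h1) (by omega)
  unfold geo
  rw [map_sum]
  have h2 : ∀ t ∈ Finset.range n, mu j (shift (-(((t + 1) * m : ℕ) : ℤ)) x) =
      mu j x * (((y j : ℝ) ^ m)⁻¹ ^ t * ((y j : ℝ) ^ m)⁻¹) := by
    intro t _
    rw [mu_shift, zpow_neg, zpow_natCast, mul_comm (t + 1) m, pow_mul, ← inv_pow, pow_succ]
    ring
  rw [Finset.sum_congr rfl h2, ← Finset.mul_sum, ← Finset.sum_mul,
    geom_sum_eq (inv_lt_one_of_one_lt₀ hy1).ne]
  have h3 : (y j : ℝ) ^ m - 1 ≠ 0 := by linarith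
  have h4 : (y j : ℝ) ^ m ≠ 0 := by linarith
  have h5 : ((y j : ℝ) ^ m)⁻¹ - 1 ≠ 0 := by
    have := inv_lt_one_of_one_lt₀ hy1
    linarith
  congr 1
  have h6 : ((y j : ℝ) ^ m)⁻¹ - 1 = -(((y j : ℝ) ^ m)⁻¹ * ((y j : ℝ) ^ m - 1)) := by
    field_simp
    ring
  rw [h6]
  field_simp
  ring

theorem mu_fold (j n : ℕ) (M : List ℕ) (hM : ∀ m ∈ M, 1 ≤ m) (x : FreeAbelianGroup Gen) :
    mu j (M.foldr (fun m z => geo m n z) x) =
      mu j x * (M.map fun m => (1 - ((y j : ℝ) ^ m)⁻¹ ^ n) / ((y j : ℝ) ^ m - 1)).prod := by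
  induction M with
  | nil => simp
  | cons m M ih =>
    rw [List.foldr_cons, mu_geo j m n (hM m (List.mem_cons_self ..)),
      ih fun m' hm' => hM m' (List.mem_cons_of_mem _ hm'), List.map_cons, List.prod_cons]
    ring

/-- the error of the partial sums -/
theorem prod_err (j n : ℕ) (M : List ℕ) (hM : ∀ m ∈ M, 1 ≤ m) :
    |(M.map fun m => (1 - ((y j : ℝ) ^ m)⁻¹ ^ n) / ((y j : ℝ) ^ m - 1)).prod -
      (M.map fun m => 1 / ((y j : ℝ) ^ m - 1)).prod| * (y j : ℝ) ^ n ≤ M.length ∧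
    |(M.map fun m => 1 / ((y j : ℝ) ^ m - 1)).prod| ≤ 1 := by
  have hy2 : (2 : ℝ) ≤ y j := by
    have : 2 ≤ y j := by
      unfold y
      calc 2 ≤ 3 ^ 1 := by norm_num
        _ ≤ 3 ^ (2 * j.factorial) := Nat.pow_le_pow_right (by norm_num) (by
          have := Nat.factorial_pos j
          omega)
    exact_mod_cast this
  induction M with
  | nil => simp
  | cons m M ih =>
    obtain ⟨ih1, ih2⟩ := ih fun m' hm' => hM m' (List.mem_cons_of_mem _ hm')
    have hm : 1 ≤ m := hM m (List.mem_cons_self ..)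
    rw [List.map_cons, List.prod_cons, List.map_cons, List.prod_cons, List.length_cons]
    obtain ⟨A, hA⟩ : ∃ A, A =
      (M.map fun m => (1 - ((y j : ℝ) ^ m)⁻¹ ^ n) / ((y j : ℝ) ^ m - 1)).prod := ⟨_, rfl⟩
    obtain ⟨B, hB⟩ : ∃ B, B = (M.map fun m => 1 / ((y j : ℝ) ^ m - 1)).prod := ⟨_, rfl⟩
    rw [← hA, ← hB] at ih1
    rw [← hB] at ih2
    rw [← hA, ← hB]
    obtain ⟨Y, hY⟩ : ∃ Y, Y = (y j : ℝ) := ⟨_, rfl⟩
    rw [← hY] at ih1 hy2 ⊢
    have hYm : Y ≤ Y ^ m := by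
      calc Y = Y ^ 1 := (pow_one Y).symm
        _ ≤ Y ^ m := pow_le_pow_right₀ (by linarith) hm
    have hYm1 : 1 ≤ Y ^ m - 1 := by linarith
    have hc0 : 0 ≤ 1 / (Y ^ m - 1) := by positivity
    have hc1 : 1 / (Y ^ m - 1) ≤ 1 := by
      rw [div_le_one (by linarith)]
      exact hYm1
    have hYn : 0 < Y ^ n := by positivity
    have hr0 : 0 ≤ (Y ^ m)⁻¹ ^ n := by positivity
    have hr1 : (Y ^ m)⁻¹ ^ n * Y ^ n ≤ 1 := by
      rw [inv_pow, ← pow_mul, inv_mul_le_one₀ (by positivity)]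
      exact pow_le_pow_right₀ (by linarith) (Nat.le_mul_of_pos_left n (by omega))
    have hr2 : (Y ^ m)⁻¹ ^ n ≤ 1 := pow_le_one₀ (by positivity)
      (inv_le_one_of_one_le₀ (by linarith))
    constructor
    · have e1 : (1 - (Y ^ m)⁻¹ ^ n) / (Y ^ m - 1) * A - 1 / (Y ^ m - 1) * B =
          (1 - (Y ^ m)⁻¹ ^ n) / (Y ^ m - 1) * (A - B) -
            (Y ^ m)⁻¹ ^ n * (1 / (Y ^ m - 1)) * B := by ring
      rw [e1]
      have h1 : |(1 - (Y ^ m)⁻¹ ^ n) / (Y ^ m - 1) * (A - B) -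
            (Y ^ m)⁻¹ ^ n * (1 / (Y ^ m - 1)) * B| ≤ |A - B| + (Y ^ m)⁻¹ ^ n := by
        refine (abs_sub _ _).trans (add_le_add ?_ ?_)
        · rw [abs_mul]
          have h2 : |(1 - (Y ^ m)⁻¹ ^ n) / (Y ^ m - 1)| ≤ 1 := by
            rw [abs_of_nonneg (div_nonneg (by linarith) (by linarith)),
              div_le_one (by linarith)]
            linarith
          calc |(1 - (Y ^ m)⁻¹ ^ n) / (Y ^ m - 1)| * |A - B| ≤ 1 * |A - B| :=
                mul_le_mul_of_nonneg_right h2 (abs_nonneg _)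
            _ = |A - B| := one_mul _
        · rw [abs_mul, abs_of_nonneg (mul_nonneg hr0 hc0)]
          calc (Y ^ m)⁻¹ ^ n * (1 / (Y ^ m - 1)) * |B| ≤ (Y ^ m)⁻¹ ^ n * 1 * 1 :=
                mul_le_mul (mul_le_mul_of_nonneg_left hc1 hr0) ih2 (abs_nonneg _)
                  (by linarith)
            _ = (Y ^ m)⁻¹ ^ n := by ring
      push_cast
      calc _ ≤ (|A - B| + (Y ^ m)⁻¹ ^ n) * Y ^ n := mul_le_mul_of_nonneg_right h1 hYn.le
        _ = |A - B| * Y ^ n + (Y ^ m)⁻¹ ^ n * Y ^ n := by ring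
        _ ≤ (M.length : ℝ) + 1 := add_le_add ih1 hr1
    · rw [abs_mul, abs_of_nonneg hc0]
      calc 1 / (Y ^ m - 1) * |B| ≤ 1 * 1 := mul_le_mul hc1 ih2 (abs_nonneg _) (by norm_num)
        _ = 1 := by ring

end Pool.Agent.Q34.WR
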