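import Pool.Agent.Helper449.MST.Defs2

/-!
# The representation of `(ℤ/3)³` on `K^{6N}`

`N` copies of `K³ × K³` with `g (x, y) = (x, y + (g₀ x₀, g₁ x₁, g₂ x₂))`.
-/

set_option autoImplicit false

namespace Pool.Agent.Q34.WR

open Pool.Agent.Helper449.MST

/-- The diagonal matrix with the entries `g₀, g₁, g₂`. -/
noncomputable def dia (g : Fin 3 → ZMod 3) : Matrix (Fin 3) (Fin 3) K :=
  Matrix.diagonal fun l => algebraMap (ZMod 3) K (g l)

/-- The matrix of `g ∈ G = (ℤ/3)³` on `K^{6N}`: on each of the `N` copies of `K³ × K³` it is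
`(x, y) ↦ (x, y + (g₀ x₀, g₁ x₁, g₂ x₂))`. -/
noncomputable def repD (N : ℕ) (g : Fin 3 → ZMod 3) : Matrix (Idx N) (Idx N) K :=
  Matrix.blockDiagonal fun _ => Matrix.fromBlocks 1 0 (dia g) 1

theorem dia_add (g h : Fin 3 → ZMod 3) : dia (g + h) = dia g + dia h := by
  unfold dia
  rw [Matrix.diagonal_add]
  congr 1
  funext l
  rw [Pi.add_apply, map_add]

theorem repD_add (N : ℕ) (g h : Fin 3 → ZMod 3) : repD N (g + h) = repD N g * repD N h := by
  unfold repD
  rw [← Matrix.blockDiagonal_mul]
  congr 1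
  funext r
  rw [Matrix.fromBlocks_multiply, dia_add]
  simp [add_comm]

theorem repD_injective (N : ℕ) (hN : 1 ≤ N) : Function.Injective (repD N) := by
  intro g h hgh
  funext l
  have h1 := congrFun (congrFun hgh (Sum.inr l, (⟨0, hN⟩ : Fin N))) (Sum.inl l, (⟨0, hN⟩ : Fin N))
  have h2 : algebraMap (ZMod 3) K (g l) = algebraMap (ZMod 3) K (h l) := by
    simpa [repD, Matrix.blockDiagonal_apply, dia] using h1
  exact (algebraMap (ZMod 3) K).injective h2

theorem repD_sub_apply (N : ℕ) (g : Fin 3 → ZMod 3) (w : Idx N → K) (l : Fin 3) (r : Fin N) :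
    ((repD N g - 1).mulVec w) (Sum.inl l, r) = 0 ∧
      ((repD N g - 1).mulVec w) (Sum.inr l, r) = algebraMap (ZMod 3) K (g l) * w (Sum.inl l, r) := by
  rw [Matrix.sub_mulVec, Matrix.one_mulVec]
  have h1 : ∀ a : Fin 3 ⊕ Fin 3, ((repD N g).mulVec w) (a, r) =
      ∑ c, Matrix.fromBlocks 1 0 (dia g) 1 a c * w (c, r) := by
    intro a
    simp only [Matrix.mulVec, dotProduct, Fintype.sum_prod_type, repD,
      Matrix.blockDiagonal_apply, ite_mul, zero_mul, Finset.sum_ite_eq, Finset.mem_univ, if_true]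
  constructor
  · rw [Pi.sub_apply, h1, Fintype.sum_sum_type]
    simp [Matrix.one_apply]
  · rw [Pi.sub_apply, h1, Fintype.sum_sum_type]
    simp [Matrix.one_apply, dia, Matrix.diagonal_apply]

/-- the fixed locus of an element which is not zero has codimension at least `N` -/
theorem repD_rank (N : ℕ) (g : Fin 3 → ZMod 3) (hg : g ≠ 0) : N ≤ (repD N g - 1).rank := by
  obtain ⟨l, hl⟩ : ∃ l, g l ≠ 0 := by
    by_contra h
    push Not at h
    exact hg (funext h)
  have hl' : algebraMap (ZMod 3) K (g l) ≠ 0 := by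
    rw [Ne, map_eq_zero]
    exact hl
  unfold Matrix.rank
  let ι : (Fin N → K) →ₗ[K] (Idx N → K) :=
    { toFun := fun z p => if p.1 = Sum.inl l then z p.2 else 0
      map_add' := by
        intro z z'
        funext p
        by_cases h : p.1 = Sum.inl l
        · simp [h]
        · simp [h]
      map_smul' := by
        intro c z
        funext p
        by_cases h : p.1 = Sum.inl l
        · simp [h]
        · simp [h] }
  let φ : (Fin N → K) →ₗ[K] LinearMap.range (repD N g - 1).mulVecLin :=
    (repD N g - 1).mulVecLin.rangeRestrict ∘ₗ ι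
  have hφ : Function.Injective φ := by
    rw [injective_iff_map_eq_zero]
    intro z hz
    funext r
    have h1 : ((repD N g - 1).mulVec (ι z)) (Sum.inr l, r) = 0 := by
      have h2 := congrArg Subtype.val hz
      exact congrFun h2 (Sum.inr l, r)
    rw [(repD_sub_apply N g (ι z) l r).2] at h1
    have h3 := (mul_eq_zero.1 h1).resolve_left hl'
    have h4 : ι z (Sum.inl l, r) = z r := if_pos rfl
    rw [h4] at h3
    exact h3
  have h1 := LinearMap.finrank_le_finrank_of_injective hφ
  rwa [Module.finrank_fin_fun] at h1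

end Pool.Agent.Q34.WR
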