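import Pool.Agent.Helper449.MST.J
import Pool.Agent.Q34.WR.Rep

/-!
# Yasuda's function `v` of the representation

The value at the torsor of `F = (f₀, f₁, f₂)` is `N (m₀ + m₁ + m₂)`, where `m_l` is the pole order
of `f_l` divided by `3`, rounded up.
-/

set_option autoImplicit false

namespace Pool.Agent.Q34.WR

open MvPolynomial Pool.Agent.Helper449.MST

/-- `|G| = 27` times the value at the torsor `F` of Yasuda's function `v` of the representation
`repD N` of `G = (ℤ/3)³` on `K^{6N}`: the length of `(𝓞 L)^{6N}` modulo the submodule generated by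
the tuning module, where `L` is the algebra of the torsor. -/
noncomputable def vD (N : ℕ) (F : ℕ →₀ K) : ℕ∞ :=
  colength (A := PowerSeries K) (L := AS (fser F)) (sigma (fser F))
    fun g => (repD N g).map PowerSeries.C

/-- the pole order of `f_l`, divided by `3` and rounded up -/
noncomputable def mD (F : ℕ →₀ K) (l : Fin 3) : ℕ :=
  open Classical in
  (Finset.range (F.support.sup id + 2)).sup fun j => if coef F j l = 0 then 0 else j / 3 + 1

theorem mD_le_iff (F : ℕ →₀ K) (l : Fin 3) (M : ℕ) :
    mD F l ≤ M ↔ ∀ j, M ≤ j / 3 → coef F j l = 0 := by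
  classical
  unfold mD
  rw [Finset.sup_le_iff]
  constructor
  · intro h j hj
    by_contra h0
    have h1 : j < F.support.sup id + 2 := by
      by_contra h1
      exact h0 (by rw [coef_eq_zero_of_top F j (by omega)]; rfl)
    have h2 := h j (Finset.mem_range.2 h1)
    rw [if_neg h0] at h2
    omega
  · intro h j _
    split_ifs with h0
    · exact Nat.zero_le _
    · by_contra h1
      exact h0 (h j (by omega))

theorem mD_le_iff' (F : ℕ →₀ K) (l : Fin 3) (M : ℕ) :
    mD F l ≤ M ↔ ∀ i, i % 3 = (l : ℕ) → 6 * M ≤ i → F i = 0 := by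
  rw [mD_le_iff]
  have hl := l.2
  constructor
  · intro h i hi hM
    have h1 := h (3 * (i / 6) + (i / 3) % 2 + 1) (by omega)
    unfold coef at h1
    have h2 : (3 * (i / 6) + (i / 3) % 2 + 1) % 3 ≠ 0 := by omega
    simp only [h2, if_false] at h1
    have h3 : 3 * (2 * ((3 * (i / 6) + (i / 3) % 2 + 1) / 3) +
        (3 * (i / 6) + (i / 3) % 2 + 1) % 3 - 1) + (l : ℕ) = i := by omega
    rwa [h3] at h1
  · intro h j hj
    unfold coef
    split_ifs with h0
    · rfl
    · exact h _ (by omega) (by omega)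

/-- the largest index of a coefficient which is not zero -/
theorem mD_top (F : ℕ →₀ K) (l : Fin 3) (s : ℕ) (hs : s < mD F l) :
    ∃ J, 3 * s < J ∧ ¬ 3 ∣ J ∧ coef F J l ≠ 0 ∧ ∀ j, J < j → coef F j l = 0 := by
  classical
  have h1 : ¬ mD F l ≤ s := by omega
  rw [mD_le_iff] at h1
  push Not at h1
  obtain ⟨j, hj, hj0⟩ := h1
  let S := (Finset.range (F.support.sup id + 2)).filter fun j => coef F j l ≠ 0
  have hS : ∀ j, coef F j l ≠ 0 → j ∈ S := by
    intro j h0
    refine Finset.mem_filter.2 ⟨Finset.mem_range.2 ?_, h0⟩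
    by_contra h1
    exact h0 (by rw [coef_eq_zero_of_top F j (by omega)]; rfl)
  have hne : S.Nonempty := ⟨j, hS j hj0⟩
  refine ⟨S.max' hne, ?_, ?_, (Finset.mem_filter.1 (S.max'_mem hne)).2, ?_⟩
  · have h2 := S.le_max' j (hS j hj0)
    have h3 : ¬ 3 ∣ j := by
      intro h3
      apply hj0
      unfold coef
      rw [if_pos (by omega)]
    omega
  · intro h3
    apply (Finset.mem_filter.1 (S.max'_mem hne)).2
    unfold coef
    rw [if_pos (by omega)]
  · intro j' hj'
    by_contra h0
    have := S.le_max' j' (hS j' h0)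
    omega

/-- integrality up to elements of `K((t))` -/
theorem int_iff (F : ℕ →₀ K) (l : Fin 3) (x : PowerSeries K) :
    (∃ y : LaurentSeries K, IsIntegral (PowerSeries K)
      (algebraMap (PowerSeries K) (AS (fser F)) x * gen (fser F) l +
        algebraMap (LaurentSeries K) (AS (fser F)) y)) ↔
      ∀ s, s < mD F l → PowerSeries.coeff s x = 0 := by
  classical
  have hJ : ∀ j, F.support.sup id + 1 < j → coef F j = 0 := fun j hj =>
    coef_eq_zero_of_top F j (by omega)
  have e1 : ∀ y : LaurentSeries K, algebraMap (PowerSeries K) (AS (fser F)) x * gen (fser F) l +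
      algebraMap (LaurentSeries K) (AS (fser F)) y =
      ∑ l', algebraMap (PowerSeries K) (AS (fser F)) ((Pi.single l x : Fin 3 → PowerSeries K) l') *
      gen (fser F) l' + algebraMap (LaurentSeries K) (AS (fser F)) y := by
    intro y
    rw [Finset.sum_eq_single l]
    · rw [Pi.single_eq_same]
    · intro l' _ hl'
      rw [Pi.single_eq_of_ne hl', map_zero, zero_mul]
    · intro h
      exact absurd (Finset.mem_univ l) h
  have e2 : ∀ y : LaurentSeries K, ∑ l', embP ((Pi.single l x : Fin 3 → PowerSeries K) l') *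
      alpha F l' + emb y = embP x * alpha F l + emb y := by
    intro y
    rw [Finset.sum_eq_single l]
    · rw [Pi.single_eq_same]
    · intro l' _ hl'
      rw [Pi.single_eq_of_ne hl', map_zero, zero_mul]
    · intro h
      exact absurd (Finset.mem_univ l) h
  have hfz : ∀ e, frobInv e 0 = 0 := by
    intro e
    unfold frobInv
    exact map_zero _
  constructor
  · rintro ⟨y, hy⟩
    rw [e1, integral_iff, e2] at hy
    by_contra hcon
    push Not at hcon
    obtain ⟨s, hs, hs0, hmin⟩ : ∃ s, s < mD F l ∧ PowerSeries.coeff s x ≠ 0 ∧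
        ∀ s' < s, PowerSeries.coeff s' x = 0 := by
      have hex : ∃ s, s < mD F l ∧ PowerSeries.coeff s x ≠ 0 := hcon
      refine ⟨Nat.find hex, (Nat.find_spec hex).1, (Nat.find_spec hex).2, ?_⟩
      intro s' hs'
      by_contra h0
      exact Nat.find_min hex hs' ⟨hs'.trans (Nat.find_spec hex).1, h0⟩
    obtain ⟨J, hJs, hJ3, hJ0, hJtop⟩ := mD_top F l s hs
    have h3 : ¬ 3 ∣ (J - 3 * s) := by omega
    have hr : -((J - 3 * s : ℕ) : ℚ) / 3 ^ 1 < 0 := by
      have h2 : (0 : ℚ) < ((J - 3 * s : ℕ) : ℚ) := by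
        have : 0 < J - 3 * s := by omega
        exact_mod_cast this
      exact div_neg_of_neg_of_pos (by linarith) (by positivity)
    have h1 := hy _ hr
    rw [HahnSeries.coeff_add, emb_coeff_ne y _ (lattice_iff_int 1 (J - 3 * s) le_rfl h3), add_zero,
      coeff_mul_alpha F _ hJ x l 1 (J - 3 * s) le_rfl (by omega) h3,
      Finset.sum_eq_single s] at h1
    · have h4 : J - 3 * s + 3 ^ 1 * s = J := by omega
      rw [h4] at h1
      rcases mul_eq_zero.1 h1 with h5 | h5
      · exact hs0 h5
      · have h6 := mat_key_pow 1 (coef F J l)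
        rw [h5, zero_pow (by norm_num)] at h6
        exact hJ0 h6.symm
    · intro s' _ hs'
      rcases lt_or_gt_of_ne hs' with h4 | h4
      · rw [hmin s' h4, zero_mul]
      · rw [hJtop _ (by omega), hfz, mul_zero]
    · intro h4
      exfalso
      apply h4
      rw [Finset.mem_range]
      by_contra h5
      exact hJ0 (by rw [hJ J (by omega)]; rfl)
  · intro h
    refine ⟨0, ?_⟩
    rw [e1, integral_iff, e2, map_zero, add_zero]
    intro r hr
    by_cases hex : ∃ e i0 : ℕ, 1 ≤ e ∧ 1 ≤ i0 ∧ ¬ 3 ∣ i0 ∧ r = -(i0 : ℚ) / 3 ^ e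
    · obtain ⟨e, i0, he, hi, h3, rfl⟩ := hex
      rw [coeff_mul_alpha F _ hJ x l e i0 he hi h3]
      refine Finset.sum_eq_zero fun s _ => ?_
      by_cases hs : s < mD F l
      · rw [h s hs, zero_mul]
      · have h4 : 3 * s ≤ 3 ^ e * s := by
          apply Nat.mul_le_mul_right
          calc 3 = 3 ^ 1 := (pow_one 3).symm
            _ ≤ 3 ^ e := Nat.pow_le_pow_right (by norm_num) he
        rw [(mD_le_iff F l s).1 (by omega) _ (by omega), hfz, mul_zero]
    · apply coeff_mul_alpha_ne F _ l r hr
      intro e i0 he hi h3 hr'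
      exact hex ⟨e, i0, he, hi, h3, hr'⟩

/-- the lattice of the first coordinates of the tuning module -/
noncomputable def LamD (F : ℕ →₀ K) : Submodule (PowerSeries K) (Fin 3 → PowerSeries K) where
  carrier := {x | ∀ l s, s < mD F l → PowerSeries.coeff s (x l) = 0}
  zero_mem' l s _ := by simp
  add_mem' {x y} hx hy l s hs := by
    rw [Pi.add_apply, map_add, hx l s hs, hy l s hs, add_zero]
  smul_mem' a x hx l s hs := by
    rw [Pi.smul_apply, smul_eq_mul, PowerSeries.coeff_mul]
    refine Finset.sum_eq_zero fun p hp => ?_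
    rw [Finset.HasAntidiagonal.mem_antidiagonal] at hp
    rw [hx l p.2 (by omega), mul_zero]

theorem mem_LamD (F : ℕ →₀ K) (x : Fin 3 → PowerSeries K) :
    x ∈ LamD F ↔ ∀ l s, s < mD F l → PowerSeries.coeff s (x l) = 0 := Iff.rfl

/-- the second coordinates -/
noncomputable def linD (F : ℕ →₀ K) (x : Fin 3 → PowerSeries K) (y : Fin 3 → LaurentSeries K)
    (i : Fin 3) : AS (fser F) :=
  algebraMap (PowerSeries K) (AS (fser F)) (x i) * gen (fser F) i +
    algebraMap (LaurentSeries K) (AS (fser F)) (y i)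

theorem mem_LamD' (F : ℕ →₀ K) (x : Fin 3 → PowerSeries K) :
    x ∈ LamD F ↔ ∃ y : Fin 3 → LaurentSeries K, ∀ i, IsIntegral (PowerSeries K) (linD F x y i) := by
  rw [mem_LamD]
  constructor
  · intro h
    choose y hy using fun i => (int_iff F i (x i)).2 (h i)
    exact ⟨y, hy⟩
  · rintro ⟨y, hy⟩ i
    exact (int_iff F i (x i)).1 ⟨y i, hy i⟩

/-- the length of the quotient by the lattice -/
theorem length_LamD (F : ℕ →₀ K) :
    Module.length (PowerSeries K) ((Fin 3 → PowerSeries K) ⧸ LamD F) =
      ((∑ l, mD F l : ℕ) : ℕ∞) := by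
  let Φ : (Fin 3 → PowerSeries K) →ₗ[K] ((Σ l : Fin 3, Fin (mD F l)) → K) :=
    { toFun := fun x p => PowerSeries.coeff p.2 (x p.1)
      map_add' := by
        intro x x'
        funext p
        simp
      map_smul' := by
        intro c x
        funext p
        simp }
  have hsurj : Function.Surjective Φ := by
    intro z
    refine ⟨fun l => PowerSeries.mk fun s => if h : s < mD F l then z ⟨l, ⟨s, h⟩⟩ else 0, ?_⟩
    funext p
    change PowerSeries.coeff (p.2 : ℕ) (PowerSeries.mk fun s =>
      if h : s < mD F p.1 then z ⟨p.1, ⟨s, h⟩⟩ else 0) = z p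
    rw [PowerSeries.coeff_mk, dif_pos p.2.2]
  have hker : LinearMap.ker Φ = (LamD F).restrictScalars K := by
    ext x
    rw [LinearMap.mem_ker, Submodule.restrictScalars_mem, mem_LamD]
    constructor
    · intro h l s hs
      exact congrFun h ⟨l, ⟨s, hs⟩⟩
    · intro h
      funext p
      exact h p.1 p.2 p.2.2
  have e1 : ((Fin 3 → PowerSeries K) ⧸ (LamD F).restrictScalars K) ≃ₗ[K]
      ((Σ l : Fin 3, Fin (mD F l)) → K) :=
    (Submodule.quotEquivOfEq _ _ hker.symm).trans (Φ.quotKerEquivOfSurjective hsurj)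
  have e2 : ((Fin 3 → PowerSeries K) ⧸ (LamD F).restrictScalars K) ≃ₗ[K]
      ((Fin 3 → PowerSeries K) ⧸ LamD F) := Submodule.Quotient.restrictScalarsEquiv K (LamD F)
  have e3 := e2.symm.trans e1
  have : FiniteDimensional K ((Fin 3 → PowerSeries K) ⧸ LamD F) := e3.symm.finiteDimensional
  rw [length_eq_finrank, e3.finrank_eq, Module.finrank_fintype_fun_eq_card, Fintype.card_sigma]
  simp

theorem tuningD_sum (N : ℕ) (F : ℕ →₀ K) (g : Fin 3 → ZMod 3)
    (w : Idx N → integralClosure (PowerSeries K) (AS (fser F))) (a : Fin 3 ⊕ Fin 3) (r : Fin N) :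
    ∑ k, algebraMap (PowerSeries K) (AS (fser F)) ((repD N g).map PowerSeries.C (a, r) k) *
      (w k : AS (fser F)) =
    ∑ c, algebraMap (PowerSeries K) (AS (fser F))
      (PowerSeries.C (Matrix.fromBlocks 1 0 (dia g) 1 a c)) * (w (c, r) : AS (fser F)) := by
  rw [Fintype.sum_prod_type]
  refine Finset.sum_congr rfl fun c _ => ?_
  rw [Finset.sum_eq_single r]
  · simp [repD, Matrix.blockDiagonal_apply]
  · intro r' _ hr
    simp [repD, Matrix.blockDiagonal_apply, hr.symm]
  · simp

theorem tuningD_inl (N : ℕ) (F : ℕ →₀ K) (g : Fin 3 → ZMod 3)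
    (w : Idx N → integralClosure (PowerSeries K) (AS (fser F))) (i : Fin 3) (r : Fin N) :
    ∑ k, algebraMap (PowerSeries K) (AS (fser F)) ((repD N g).map PowerSeries.C (Sum.inl i, r) k) *
      (w k : AS (fser F)) = w (Sum.inl i, r) := by
  rw [tuningD_sum, Fintype.sum_sum_type]
  simp [Matrix.one_apply]

theorem tuningD_inr (N : ℕ) (F : ℕ →₀ K) (g : Fin 3 → ZMod 3)
    (w : Idx N → integralClosure (PowerSeries K) (AS (fser F))) (i : Fin 3) (r : Fin N) :
    ∑ k, algebraMap (PowerSeries K) (AS (fser F)) ((repD N g).map PowerSeries.C (Sum.inr i, r) k) *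
      (w k : AS (fser F)) = ((g i).val : AS (fser F)) * (w (Sum.inl i, r) : AS (fser F)) +
        w (Sum.inr i, r) := by
  rw [tuningD_sum, Fintype.sum_sum_type]
  have h1 : ∀ k : Fin 3, algebraMap (PowerSeries K) (AS (fser F)) (PowerSeries.C (dia g i k)) =
      if i = k then ((g i).val : AS (fser F)) else 0 := by
    intro k
    unfold dia
    rw [Matrix.diagonal_apply]
    split_ifs with h
    · rw [← ZMod.natCast_zmod_val (g i), map_natCast, map_natCast, map_natCast,
        ZMod.natCast_zmod_val]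
    · rw [map_zero, map_zero]
  simp [Matrix.one_apply, h1]

theorem tuningD_sigma (F : ℕ →₀ K) (g : Fin 3 → ZMod 3) (x : Fin 3 → PowerSeries K)
    (y : Fin 3 → LaurentSeries K) (i : Fin 3) :
    sigma (fser F) g (linD F x y i) = ((g i).val : AS (fser F)) *
      algebraMap (PowerSeries K) (AS (fser F)) (x i) + linD F x y i := by
  rw [sigma_eq, linD, map_add, sigma_algebraMap, map_mul, sigma_gen, ← tuning_iff_tower,
    sigma_algebraMap]
  ring

theorem tuningD_iff (N : ℕ) (F : ℕ →₀ K)
    (w : Idx N → integralClosure (PowerSeries K) (AS (fser F))) :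
    w ∈ tuning (sigma (fser F)) (fun g => (repD N g).map PowerSeries.C) ↔
      ∀ r, ∃ x ∈ LamD F, ∃ y : Fin 3 → LaurentSeries K, ∀ i,
        (w (Sum.inl i, r) : AS (fser F)) = algebraMap (PowerSeries K) (AS (fser F)) (x i) ∧
        (w (Sum.inr i, r) : AS (fser F)) = linD F x y i := by
  constructor
  · intro hw r
    have h1 : ∀ i, ∃ z : PowerSeries K,
        (w (Sum.inl i, r) : AS (fser F)) = algebraMap (PowerSeries K) (AS (fser F)) z := by
      intro i
      obtain ⟨y, hy⟩ := invariants (fser F) (w (Sum.inl i, r) : AS (fser F)) (fun g => by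
        have := hw g (Sum.inl i, r)
        rw [tuningD_inl] at this
        exact this)
      have hi : IsIntegral (PowerSeries K) (algebraMap (LaurentSeries K) (AS (fser F)) y) := by
        rw [← hy]
        exact (w (Sum.inl i, r)).2
      obtain ⟨z, hz⟩ := integral_algebraMap F y hi
      exact ⟨z, by rw [hy, hz, tuning_iff_tower]⟩
    choose x hx using h1
    have h2 : ∀ i, ∃ y : LaurentSeries K, (w (Sum.inr i, r) : AS (fser F)) - linD F x 0 i =
        algebraMap (LaurentSeries K) (AS (fser F)) y := by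
      intro i
      refine invariants (fser F) _ fun g => ?_
      have := hw g (Sum.inr i, r)
      rw [tuningD_inr] at this
      have h3 := tuningD_sigma F g x 0 i
      rw [sigma_eq] at this h3 ⊢
      rw [map_sub, this, h3, hx]
      ring
    choose y hy using h2
    have h4 : ∀ i, (w (Sum.inr i, r) : AS (fser F)) = linD F x y i := by
      intro i
      have := hy i
      rw [sub_eq_iff_eq_add] at this
      rw [this, linD, linD]
      simp only [Pi.zero_apply, map_zero]
      ring
    refine ⟨x, (mem_LamD' F x).2 ⟨y, fun i => ?_⟩, y, fun i => ⟨hx i, h4 i⟩⟩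
    rw [← h4 i]
    exact (w (Sum.inr i, r)).2
  · rintro h g ⟨a, r⟩
    obtain ⟨x, -, y, hxy⟩ := h r
    rcases a with i | i
    · change sigma (fser F) g (w (Sum.inl i, r)) = ∑ k, algebraMap (PowerSeries K) (AS (fser F))
        ((repD N g).map PowerSeries.C (Sum.inl i, r) k) * (w k : AS (fser F))
      rw [tuningD_inl, (hxy i).1, sigma_eq, ← tuning_iff_tower, sigma_algebraMap]
    · change sigma (fser F) g (w (Sum.inr i, r)) = ∑ k, algebraMap (PowerSeries K) (AS (fser F))
        ((repD N g).map PowerSeries.C (Sum.inr i, r) k) * (w k : AS (fser F))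
      rw [tuningD_inr, (hxy i).2, tuningD_sigma, (hxy i).1]

theorem vD_eq_mul (N : ℕ) (F : ℕ →₀ K) : vD N F = N * spanColength (PowerSeries K)
    {w : Fin 3 → integralClosure (PowerSeries K) (AS (fser F)) |
      ∃ x ∈ LamD F, ∀ i, w i = algebraMap (PowerSeries K) _ (x i)} := by
  classical
  unfold vD colength
  have hlin : ∀ (y : Fin 3 → LaurentSeries K) (i : Fin 3),
      linD F 0 y i = algebraMap (LaurentSeries K) (AS (fser F)) (y i) := by
    intro y i
    simp [linD]
  apply v27_eq_mul_aux
  · intro w hw r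
    obtain ⟨x, hx, y, h⟩ := (tuningD_iff N F w).1 hw r
    refine ⟨x, hx, fun i => ?_⟩
    apply Subtype.ext
    exact (h i).1
  · rintro u ⟨x, hx, hu⟩ r
    obtain ⟨y, hy⟩ := (mem_LamD' F x).1 hx
    refine ⟨fun k => Sum.elim (fun i => if k.2 = r then u i else 0)
      (fun i => if k.2 = r then ⟨linD F x y i, hy i⟩ else 0) k.1, ?_, ?_⟩
    · rw [tuningD_iff]
      intro r'
      by_cases hr : r' = r
      · refine ⟨x, (mem_LamD' F x).2 ⟨y, hy⟩, y, fun i => ⟨?_, ?_⟩⟩
        · simp only [Sum.elim_inl, hr, if_true]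
          rw [hu i]
          rfl
        · simp only [Sum.elim_inr, hr, if_true]
      · refine ⟨0, (LamD F).zero_mem, 0, fun i => ⟨?_, ?_⟩⟩
        · simp only [Sum.elim_inl, hr, if_false]
          simp
        · simp only [Sum.elim_inr, hr, if_false]
          rw [hlin]
          simp
    · intro r'
      by_cases hr : r' = r
      · simp [hr]
      · simp [hr]
        rfl
  · intro j r
    rw [tuningD_iff]
    intro r'
    refine ⟨0, (LamD F).zero_mem, if r' = r then Pi.single j 1 else 0, fun i => ⟨?_, ?_⟩⟩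
    · rw [Pi.single_apply, if_neg (by simp)]
      simp
    · rw [hlin, Pi.single_apply]
      by_cases hr : r' = r
      · by_cases hi : i = j
        · simp [hr, hi]
        · simp [hr, hi]
      · simp [hr]

/-- The value of `v`. -/
theorem vD_eq (N : ℕ) (F : ℕ →₀ K) : vD N F = ((27 * N * ∑ l, mD F l : ℕ) : ℕ∞) := by
  obtain ⟨b⟩ := free_rank F
  rw [vD_eq_mul, length_free b (LamD F), length_LamD]
  push_cast
  ring

end Pool.Agent.Q34.WR
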