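import Pool.Agent.Helper449.MST.U
import Pool.Agent.Q34.WR.Val

/-!
# The level sets of `v` and the partial sums of the stringy motive
-/

set_option autoImplicit false

namespace Pool.Agent.Q34.WR

open MvPolynomial Pool.Agent.Helper449.MST

/-- the sum of the three rounded pole orders -/
noncomputable def sD (F : ℕ →₀ K) : ℕ := ∑ l, mD F l

theorem constr_union {n : ℕ} {S T : Set (Fin n → K)} (hS : Constr S) (hT : Constr T) :
    Constr (S ∪ T) := by
  have h := (hS.compl.inter hT.compl).compl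
  rwa [Set.compl_inter, compl_compl, compl_compl] at h

theorem constr_empty (n : ℕ) : Constr (∅ : Set (Fin n → K)) := by
  have h := (constr_univ n).compl
  rwa [Set.compl_univ] at h

theorem constr_biUnion {n : ℕ} {ι : Type} (s : Finset ι) (S : ι → Set (Fin n → K))
    (h : ∀ i ∈ s, Constr (S i)) : Constr (⋃ i ∈ s, S i) := by
  classical
  induction s using Finset.induction_on with
  | empty =>
    have : (⋃ i ∈ (∅ : Finset ι), S i) = ∅ := by simp
    rw [this]
    exact constr_empty n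
  | insert a s ha ih =>
    rw [Finset.set_biUnion_insert]
    exact constr_union (h a (Finset.mem_insert_self a s))
      (ih fun i hi => h i (Finset.mem_insert_of_mem hi))

theorem constr_biInter {n : ℕ} {ι : Type} (s : Finset ι) (S : ι → Set (Fin n → K))
    (h : ∀ i ∈ s, Constr (S i)) : Constr (⋂ i ∈ s, S i) := by
  have h1 := (constr_biUnion s (fun i => (S i)ᶜ) fun i hi => (h i hi).compl).compl
  have h2 : (⋃ i ∈ s, (S i)ᶜ)ᶜ = ⋂ i ∈ s, S i := by
    simp
  rwa [h2] at h1

/-- a set which is described by the vanishing of coordinates is constructible -/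
theorem constr_pattern {n : ℕ} (P : Finset (Fin n) → Prop) :
    Constr {x : Fin n → K | ∃ s : Finset (Fin n), P s ∧ ∀ i, i ∈ s ↔ x i = 0} := by
  classical
  have h1 : {x : Fin n → K | ∃ s : Finset (Fin n), P s ∧ ∀ i, i ∈ s ↔ x i = 0} =
      ⋃ s ∈ (Finset.univ.filter P : Finset (Finset (Fin n))),
        ⋂ i ∈ (Finset.univ : Finset (Fin n)), {x : Fin n → K | i ∈ s ↔ x i = 0} := by
    ext x
    simp
  rw [h1]
  refine constr_biUnion _ _ fun s _ => constr_biInter _ _ fun i _ => ?_
  have h2 : Constr {x : Fin n → K | x i = 0} := by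
    have h3 := Constr.zero (n := n) (X i)
    have h4 : {x : Fin n → K | eval x (X i) = 0} = {x : Fin n → K | x i = 0} := by
      ext x
      simp
    rwa [h4] at h3
  by_cases hi : i ∈ s
  · have h3 : {x : Fin n → K | i ∈ s ↔ x i = 0} = {x : Fin n → K | x i = 0} := by
      ext x
      simp [hi]
    rw [h3]
    exact h2
  · have h3 : {x : Fin n → K | i ∈ s ↔ x i = 0} = {x : Fin n → K | x i = 0}ᶜ := by
      ext x
      simp [hi]
    rw [h3]
    exact h2.compl

theorem ofFin_apply {n : ℕ} (x : Fin n → K) (i : ℕ) :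
    ofFin x i = if h : i < n then x ⟨i, h⟩ else 0 := rfl

/-- the rounded pole orders depend only on the vanishing of coordinates -/
theorem mD_congr {F F' : ℕ →₀ K} (h : ∀ i, F i = 0 ↔ F' i = 0) (l : Fin 3) : mD F l = mD F' l := by
  apply le_antisymm
  · rw [mD_le_iff']
    intro i hi hM
    rw [h]
    exact (mD_le_iff' F' l _).1 le_rfl i hi hM
  · rw [mD_le_iff']
    intro i hi hM
    rw [← h]
    exact (mD_le_iff' F l _).1 le_rfl i hi hM

theorem constr_sD (n : ℕ) (P : ℕ → Prop) : Constr {x : Fin n → K | P (sD (ofFin x))} := by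
  classical
  have h1 : {x : Fin n → K | P (sD (ofFin x))} = {x : Fin n → K | ∃ s : Finset (Fin n),
      P (sD (ofFin fun i => if i ∈ s then (0 : K) else 1)) ∧ ∀ i, i ∈ s ↔ x i = 0} := by
    ext x
    have key : ∀ s : Finset (Fin n), (∀ i, i ∈ s ↔ x i = 0) →
        sD (ofFin x) = sD (ofFin fun i => if i ∈ s then (0 : K) else 1) := by
      intro s hs
      unfold sD
      refine Finset.sum_congr rfl fun l _ => mD_congr (fun i => ?_) l
      rw [ofFin_apply, ofFin_apply]
      by_cases h : i < n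
      · rw [dif_pos h, dif_pos h]
        by_cases h2 : (⟨i, h⟩ : Fin n) ∈ s
        · rw [if_pos h2]
          exact ⟨fun _ => rfl, fun _ => (hs _).1 h2⟩
        · rw [if_neg h2]
          exact ⟨fun h3 => absurd ((hs _).2 h3) h2, fun h3 => absurd h3 one_ne_zero⟩
      · rw [dif_neg h, dif_neg h]
    constructor
    · intro hx
      refine ⟨Finset.univ.filter fun i => x i = 0, ?_, by simp⟩
      rw [← key _ (by simp)]
      exact hx
    · rintro ⟨s, hP, hs⟩
      change P (sD (ofFin x))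
      rw [key s hs]
      exact hP
  rw [h1]
  exact constr_pattern _

/-- The level set `v = b / 27` in the space `K^b` of the torsors with only the first `b`
coordinates nonzero. -/
def levelD (N b : ℕ) : Set (Fin b → K) := {x | vD N (ofFin x) = b}

theorem constr_levelD (N b : ℕ) : Constr (levelD N b) := by
  have h1 : levelD N b = {x : Fin b → K | 27 * N * sD (ofFin x) = b} := by
    ext x
    change vD N (ofFin x) = (b : ℕ∞) ↔ 27 * N * sD (ofFin x) = b
    rw [vD_eq, Nat.cast_inj]
    rfl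
  rw [h1]
  exact constr_sD b (fun s => 27 * N * s = b)

/-- The partial sums `∑_{b ≤ n} {v⁻¹(b / 27)} L^{6N - b / 27}` of the stringy motive of
`K^{6N} / G`, by Yasuda's formula. -/
noncomputable def stringyD (N n : ℕ) : FreeAbelianGroup Gen :=
  ∑ b ∈ Finset.range (n + 1),
    FreeAbelianGroup.of ⟨b, levelD N b, constr_levelD N b, 27 * (6 * (N : ℤ)) - b⟩

/-- the level sets of the sum of the rounded pole orders -/
def lev (a : ℕ) : Set (Fin (6 * a) → K) := {x | sD (ofFin x) = a}

theorem constr_lev (a : ℕ) : Constr (lev a) := constr_sD _ (fun s => s = a)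

/-- the coordinates of a torsor vanish beyond the bound -/
theorem support_sD (F : ℕ →₀ K) (i : ℕ) (hi : 6 * sD F ≤ i) : F i = 0 := by
  have h1 : mD F ⟨i % 3, Nat.mod_lt _ (by norm_num)⟩ ≤ sD F :=
    Finset.single_le_sum (f := fun l => mD F l) (fun l _ => Nat.zero_le _) (Finset.mem_univ _)
  exact (mD_le_iff' F ⟨i % 3, Nat.mod_lt _ (by norm_num)⟩ _).1 h1 i rfl hi

/-- the partial sums -/
noncomputable def parD (N n : ℕ) : FreeAbelianGroup Gen :=
  ∑ a ∈ Finset.range (n + 1),
    FreeAbelianGroup.of ⟨6 * a, lev a, constr_lev a, 27 * (6 * (N : ℤ) - N * a)⟩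

theorem levD_mem (N a : ℕ) (hN : 1 ≤ N) (x : Fin (27 * N * a) → K) :
    x ∈ levelD N (27 * N * a) ↔ sD (ofFin x) = a := by
  change vD N (ofFin x) = ((27 * N * a : ℕ) : ℕ∞) ↔ _
  rw [vD_eq, Nat.cast_inj]
  have h : 0 < 27 * N := by omega
  exact Nat.mul_right_inj h.ne'

theorem levD_of (n m a : ℕ) (x : Fin n → K) (hm : 6 * a ≤ m) (hx : sD (ofFin x) = a) :
    ofFin (level_isom_f n m x) = ofFin x := by
  ext i
  rw [level_isom_apply, level_isom_apply]
  by_cases h : i < m
  · rw [dif_pos h]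
    rfl
  · rw [dif_neg h]
    have h0 := support_sD (ofFin x) i (by rw [hx]; omega)
    rw [level_isom_apply] at h0
    exact h0.symm

theorem levD_isom (N a : ℕ) (hN : 1 ≤ N) : Isom (levelD N (27 * N * a)) (lev a) := by
  have hle : 6 * a ≤ 27 * N * a := Nat.mul_le_mul_right a (by omega)
  refine ⟨level_isom_f _ _, level_isom_f _ _, level_isom_reg _ _ _, level_isom_reg _ _ _, ?_, ?_,
    ?_, ?_⟩
  · intro x hx
    have h1 := (levD_mem N a hN x).1 hx
    change sD (ofFin (level_isom_f _ _ x)) = a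
    rw [levD_of _ _ a x le_rfl h1, h1]
  · intro y hy
    have h1 : sD (ofFin y) = a := hy
    rw [levD_mem N a hN, levD_of _ _ a y hle h1, h1]
  · intro x hx
    have h1 := (levD_mem N a hN x).1 hx
    apply level_isom_inj
    have h2 := levD_of _ _ a x (le_refl (6 * a)) h1
    rw [levD_of _ _ a _ hle (by rw [h2, h1]), h2]
  · intro y hy
    have h1 : sD (ofFin y) = a := hy
    apply level_isom_inj
    have h2 := levD_of _ _ a y hle h1
    rw [levD_of _ _ a _ le_rfl (by rw [h2, h1]), h2]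

/-- term of `stringyD` -/
noncomputable def tT (N b : ℕ) : FreeAbelianGroup Gen :=
  FreeAbelianGroup.of ⟨b, levelD N b, constr_levelD N b, 27 * (6 * (N : ℤ)) - b⟩

/-- term of `parD` -/
noncomputable def tS (N a : ℕ) : FreeAbelianGroup Gen :=
  FreeAbelianGroup.of ⟨6 * a, lev a, constr_lev a, 27 * (6 * (N : ℤ) - N * a)⟩

theorem tA (N b : ℕ) (h : ¬ 27 * N ∣ b) : tT N b ∈ relSub := by
  apply empty_rel
  rw [Set.eq_empty_iff_forall_notMem]
  intro x hx
  have hx' : vD N (ofFin x) = (b : ℕ∞) := hx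
  rw [vD_eq] at hx'
  have h2 : 27 * N * sD (ofFin x) = b := by exact_mod_cast hx'
  exact h ⟨_, h2.symm⟩

theorem tB (N a : ℕ) (hN : 1 ≤ N) : tT N (27 * N * a) - tS N a ∈ relSub := by
  have e : 27 * (6 * (N : ℤ)) - ((27 * N * a : ℕ) : ℤ) = 27 * (6 * (N : ℤ) - N * a) := by
    push_cast
    ring
  unfold tT tS
  rw [e]
  exact AddSubgroup.subset_closure (Rel.iso _ _ (levD_isom N a hN) _)

theorem stringyD_sub (N n : ℕ) (hN : 1 ≤ N) :
    stringyD N n - parD N (n / (27 * N)) ∈ relSub := by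
  change ∑ b ∈ Finset.range (n + 1), tT N b
      - ∑ a ∈ Finset.range (n / (27 * N) + 1), tS N a ∈ relSub
  induction n with
  | zero =>
    have h := tB N 0 hN
    rw [Nat.zero_div, zero_add, Finset.sum_range_one, Finset.sum_range_one]
    exact h
  | succ n ih =>
    rw [Finset.sum_range_succ _ (n + 1)]
    by_cases h : 27 * N ∣ n + 1
    · have e1 : (n + 1) / (27 * N) = n / (27 * N) + 1 := by
        rw [Nat.succ_div, if_pos h]
      have e2 : 27 * N * (n / (27 * N) + 1) = n + 1 := by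
        rw [← e1]
        exact Nat.mul_div_cancel' h
      rw [e1, Finset.sum_range_succ _ (n / (27 * N) + 1)]
      have h2 := tB N (n / (27 * N) + 1) hN
      rw [e2] at h2
      have h3 := relSub.add_mem ih h2
      rwa [sub_add_sub_comm] at h3
    · have e1 : (n + 1) / (27 * N) = n / (27 * N) := by
        rw [Nat.succ_div, if_neg h, Nat.add_zero]
      rw [e1]
      have h3 := relSub.add_mem ih (tA N (n + 1) h)
      rwa [sub_add_eq_add_sub] at h3

theorem tS_fil (m : ℤ) (a : ℕ) (ha : (48 + m).toNat ≤ a) : tS 8 a ∈ Fil m := by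
  apply AddSubgroup.subset_closure
  refine ⟨⟨6 * a, lev a, constr_lev a, 27 * (6 * ((8 : ℕ) : ℤ) - ((8 : ℕ) : ℤ) * a)⟩, 6 * a,
    ?_, ?_, rfl⟩
  · refine (ringKrullDim_quotient_le _).trans ?_
    rw [MvPolynomial.ringKrullDim_of_isNoetherianRing, ringKrullDim_eq_zero_of_field, zero_add,
      Nat.card_eq_fintype_card, Fintype.card_fin]
  · change 27 * ((6 * a : ℕ) : ℤ) + 27 * (6 * ((8 : ℕ) : ℤ) - ((8 : ℕ) : ℤ) * a) ≤ -(27 * m)
    push_cast
    have : 48 + m ≤ (a : ℤ) := by omega
    omega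

theorem parD_aux (m : ℤ) (n : ℕ) (hn : (48 + m).toNat ≤ n) :
    parD 8 n - parD 8 (48 + m).toNat ∈ Fil m := by
  induction n, hn using Nat.le_induction with
  | base => rw [sub_self]; exact (Fil m).zero_mem
  | succ n hn ih =>
    have h1 : parD 8 (n + 1) - parD 8 (48 + m).toNat =
        (parD 8 n - parD 8 (48 + m).toNat) + tS 8 (n + 1) := by
      change ∑ a ∈ Finset.range (n + 1 + 1), tS 8 a - _ =
        (∑ a ∈ Finset.range (n + 1), tS 8 a - _) + tS 8 (n + 1)
      rw [Finset.sum_range_succ _ (n + 1)]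
      abel
    rw [h1]
    exact (Fil m).add_mem ih (tS_fil m (n + 1) (by omega))

/-- the stringy motive is finite -/
theorem stringyD_converges : ConvergesMod relSub (stringyD 8) := by
  intro m
  refine ⟨(48 + m).toNat * (27 * 8), fun n hn n' hn' => ?_⟩
  have h1 : (48 + m).toNat ≤ n / (27 * 8) := (Nat.le_div_iff_mul_le (by norm_num)).2 hn
  have h2 : (48 + m).toNat ≤ n' / (27 * 8) := (Nat.le_div_iff_mul_le (by norm_num)).2 hn'
  have h3 := (Fil m).sub_mem (parD_aux m _ h1) (parD_aux m _ h2)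
  rw [sub_sub_sub_cancel_right] at h3
  have h3' : parD 8 (n / (27 * 8)) - parD 8 (n' / (27 * 8)) ∈ relSub ⊔ Fil m :=
    (le_sup_right : Fil m ≤ relSub ⊔ Fil m) h3
  have h4 : stringyD 8 n - parD 8 (n / (27 * 8)) ∈ relSub ⊔ Fil m :=
    (le_sup_left : relSub ≤ relSub ⊔ Fil m) (stringyD_sub 8 n (by norm_num))
  have h5 : stringyD 8 n' - parD 8 (n' / (27 * 8)) ∈ relSub ⊔ Fil m :=
    (le_sup_left : relSub ≤ relSub ⊔ Fil m) (stringyD_sub 8 n' (by norm_num))
  have h6 : stringyD 8 n - stringyD 8 n' =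
      (stringyD 8 n - parD 8 (n / (27 * 8))) +
      (parD 8 (n / (27 * 8)) - parD 8 (n' / (27 * 8))) -
      (stringyD 8 n' - parD 8 (n' / (27 * 8))) := by abel
  rw [h6]
  exact sub_mem (add_mem h4 h3') h5

theorem mu_parD (j N n : ℕ) : mu j (parD N n) =
    ∑ a ∈ Finset.range (n + 1), (cnt j (lev a) : ℝ) * (y j : ℝ) ^ (27 * (6 * (N : ℤ) - N * a)) := by
  unfold parD mu
  rw [map_sum]
  refine Finset.sum_congr rfl fun a _ => ?_
  rw [FreeAbelianGroup.lift_apply_of]

end Pool.Agent.Q34.WR
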