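import Pool.Agent.Q34.WR.Cnt

/-!
# The limit of the point counts of the partial sums
-/

set_option autoImplicit false

namespace Pool.Agent.Q34.WR

open MvPolynomial Pool.Agent.Helper449.MST

theorem tor_injective {j n : ℕ} : Function.Injective (tor : (Fin n → Kap j) → (ℕ →₀ K)) := by
  intro x x' h
  funext i
  have h1 := DFunLike.congr_fun h (i : ℕ)
  rw [tor_apply, tor_apply, dif_pos i.2, dif_pos i.2] at h1
  exact Subtype.ext h1

/-- an element of the field with `q_j` elements -/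
def mkK {j : ℕ} (z : K) (h : z ^ q j = z) : Kap j := ⟨z, h⟩

/-- the rational torsors with a given value of `v` -/
def Wt (j a : ℕ) : Set (ℕ →₀ K) := {F | (∀ i, F i ^ q j = F i) ∧ sD F = a}

theorem tor_rational {j n : ℕ} (x : Fin n → Kap j) (i : ℕ) : tor x i ^ q j = tor x i := by
  rw [tor_apply]
  split_ifs with h
  · exact (x ⟨i, h⟩).2
  · exact zero_pow (by have := one_lt_q j; omega)

theorem Wt_tor (j a n : ℕ) (han : a ≤ n) :
    tor '' {x : Fin (6 * n) → Kap j | sD (tor x) = a} = Wt j a := by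
  ext F
  constructor
  · rintro ⟨x, hx, rfl⟩
    exact ⟨fun i => tor_rational x i, hx⟩
  · rintro ⟨h1, h2⟩
    have h3 : tor (fun i : Fin (6 * n) => mkK (F i) (h1 i)) = F := by
      ext i
      rw [tor_apply]
      split_ifs with h
      · rfl
      · exact (support_sD F i (by rw [h2]; omega)).symm
    exact ⟨_, by rw [← h3] at h2; exact h2, h3⟩

theorem cnt_lev (j a n : ℕ) (han : a ≤ n) : cnt j (lev a) =
    open Classical in (Finset.univ.filter fun x : Fin (6 * n) → Kap j => sD (tor x) = a).card := by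
  classical
  have h1 : ofFin '' pts j (lev a) = Wt j a := by
    ext F
    constructor
    · rintro ⟨x, ⟨hx1, hx2⟩, rfl⟩
      refine ⟨fun i => ?_, hx1⟩
      rw [ofFin_apply]
      split_ifs with h
      · exact hx2 _
      · exact zero_pow (by have := one_lt_q j; omega)
    · rintro ⟨h1, h2⟩
      have h3 : ofFin (fun i : Fin (6 * a) => F i) = F := by
        ext i
        rw [ofFin_apply]
        split_ifs with h
        · rfl
        · exact (support_sD F i (by rw [h2]; omega)).symm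
      refine ⟨_, ⟨?_, fun i => h1 i⟩, h3⟩
      change sD (ofFin fun i : Fin (6 * a) => F i) = a
      rw [h3]
      exact h2
  have h2 : Function.Injective (ofFin : (Fin (6 * a) → K) → (ℕ →₀ K)) :=
    fun x y h => level_isom_inj x y h
  unfold cnt
  rw [← Set.ncard_image_of_injective _ h2, h1, ← Wt_tor j a n han,
    Set.ncard_image_of_injective _ tor_injective, ← Set.ncard_coe_finset]
  congr 1
  ext x
  simp

theorem sum_lev (j n : ℕ) (T : ℝ) (hT0 : 0 ≤ T) (hT1 : T ≤ 1) :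
    0 ≤ ∑ x : Fin (6 * n) → Kap j, T ^ sD (tor x) -
      ∑ a ∈ Finset.range (n + 1), (cnt j (lev a) : ℝ) * T ^ a ∧
    ∑ x : Fin (6 * n) → Kap j, T ^ sD (tor x) -
      ∑ a ∈ Finset.range (n + 1), (cnt j (lev a) : ℝ) * T ^ a ≤ (q j : ℝ) ^ (6 * n) * T ^ (n + 1) := by
  classical
  have h1 : ∑ a ∈ Finset.range (n + 1), (cnt j (lev a) : ℝ) * T ^ a =
      ∑ x ∈ Finset.univ.filter (fun x : Fin (6 * n) → Kap j => sD (tor x) ∈ Finset.range (n + 1)),
        T ^ sD (tor x) := by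
    rw [← Finset.sum_fiberwise_of_maps_to (s := Finset.univ.filter
      (fun x : Fin (6 * n) → Kap j => sD (tor x) ∈ Finset.range (n + 1)))
      (t := Finset.range (n + 1)) (g := fun x => sD (tor x))
      (fun x hx => (Finset.mem_filter.1 hx).2)]
    refine Finset.sum_congr rfl fun a ha => ?_
    have ha' : a ≤ n := Nat.lt_succ_iff.1 (Finset.mem_range.1 ha)
    rw [cnt_lev j a n ha']
    have h2 : (Finset.univ.filter (fun x : Fin (6 * n) → Kap j =>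
        sD (tor x) ∈ Finset.range (n + 1))).filter (fun x => sD (tor x) = a) =
        Finset.univ.filter fun x : Fin (6 * n) → Kap j => sD (tor x) = a := by
      ext x
      simp only [Finset.mem_filter, Finset.mem_univ, true_and]
      exact ⟨fun h => h.2, fun h => ⟨by rw [h]; exact ha, h⟩⟩
    rw [h2, Finset.sum_congr rfl (fun x hx => by rw [(Finset.mem_filter.1 hx).2]),
      Finset.sum_const, nsmul_eq_mul]
  have h3 := Finset.sum_filter_add_sum_filter_not (Finset.univ : Finset (Fin (6 * n) → Kap j))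
    (fun x => sD (tor x) ∈ Finset.range (n + 1)) (fun x => T ^ sD (tor x))
  rw [h1, ← h3, add_sub_cancel_left]
  constructor
  · exact Finset.sum_nonneg fun x _ => pow_nonneg hT0 _
  · have h4 : ∀ x ∈ Finset.univ.filter (fun x : Fin (6 * n) → Kap j =>
        ¬ sD (tor x) ∈ Finset.range (n + 1)), T ^ sD (tor x) ≤ T ^ (n + 1) := by
      intro x hx
      have h5 := (Finset.mem_filter.1 hx).2
      rw [Finset.mem_range, not_lt] at h5
      exact pow_le_pow_of_le_one hT0 hT1 h5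
    refine (Finset.sum_le_sum h4).trans ?_
    rw [Finset.sum_const, nsmul_eq_mul]
    refine mul_le_mul_of_nonneg_right ?_ (pow_nonneg hT0 _)
    have h6 : (Finset.univ.filter (fun x : Fin (6 * n) → Kap j =>
        ¬ sD (tor x) ∈ Finset.range (n + 1))).card ≤ q j ^ (6 * n) := by
      refine (Finset.card_filter_le _ _).trans ?_
      rw [Finset.card_univ, Fintype.card_fun, card_Kap, Fintype.card_fin]
    exact_mod_cast h6

theorem sum_cube (j n : ℕ) (T : ℝ) : ∑ x : Fin (6 * n) → Kap j, T ^ sD (tor x) =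
    (1 + ∑ m ∈ Finset.range n, ((q j : ℝ) ^ (2 * (m + 1)) - (q j : ℝ) ^ (2 * m)) * T ^ (m + 1)) ^ 3
    := by
  have h1 := sum_pattern j n fun _ m => T ^ m
  simp only [Finset.prod_pow_eq_pow_sum, pow_zero, Finset.prod_const, Finset.card_univ,
    Fintype.card_fin] at h1
  exact h1

theorem geom_closed (Q : ℝ) (hQ : 1 < Q) (n : ℕ) :
    1 + ∑ m ∈ Finset.range n, (Q ^ (2 * (m + 1)) - Q ^ (2 * m)) * ((Q ^ 8)⁻¹) ^ (m + 1) =
      (Q ^ 8 - 1) / (Q ^ 2 * (Q ^ 6 - 1)) -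
        (Q ^ 2 - 1) / (Q ^ 2 * (Q ^ 6 - 1)) * ((Q ^ 6)⁻¹) ^ n := by
  have hQ0 : Q ≠ 0 := by linarith
  have h6 : Q ^ 6 - 1 ≠ 0 := by
    have := one_lt_pow₀ hQ (n := 6) (by norm_num)
    linarith
  induction n with
  | zero =>
    rw [Finset.range_zero, Finset.sum_empty, pow_zero]
    field_simp
    ring
  | succ n ih =>
    rw [Finset.sum_range_succ, ← add_assoc, ih]
    have h1 : (Q ^ (2 * (n + 1)) - Q ^ (2 * n)) * ((Q ^ 8)⁻¹) ^ (n + 1) =
        (Q ^ 2 - 1) * (Q ^ 8)⁻¹ * ((Q ^ 6)⁻¹) ^ n := by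
      have h2 : ((Q ^ 8)⁻¹) ^ n = ((Q ^ 6)⁻¹) ^ n * ((Q ^ 2)⁻¹) ^ n := by
        rw [← mul_pow, ← mul_inv, ← pow_add]
      have h3 : Q ^ (2 * n) * ((Q ^ 2)⁻¹) ^ n = 1 := by
        rw [pow_mul, ← mul_pow, mul_inv_cancel₀ (pow_ne_zero 2 hQ0), one_pow]
      rw [mul_add, pow_add, pow_succ ((Q ^ 8)⁻¹) n, h2]
      linear_combination ((Q ^ 2 - 1) * (Q ^ 8)⁻¹ * ((Q ^ 6)⁻¹) ^ n) * h3
    rw [h1, pow_succ ((Q ^ 6)⁻¹) n]
    field_simp
    ring

/-- the point counts of the partial sums converge to those of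
`L^42 ((L^8 - 1) / (L^6 - 1))^3` -/
theorem mu_lim (j n : ℕ) :
    |mu j (parD 8 n) - (q j : ℝ) ^ 42 * (((q j : ℝ) ^ 8 - 1) / ((q j : ℝ) ^ 6 - 1)) ^ 3| *
      (q j : ℝ) ^ (2 * n) ≤ 13 * (q j : ℝ) ^ 48 := by
  obtain ⟨Q, hQdef⟩ : ∃ Q : ℝ, Q = (q j : ℝ) := ⟨_, rfl⟩
  have hQ : 1 < Q := by
    rw [hQdef]
    exact_mod_cast one_lt_q j
  have hQ2 : 2 ≤ Q := by
    rw [hQdef]
    exact_mod_cast one_lt_q j
  have hQ0 : Q ≠ 0 := by linarith
  have hQp : 0 < Q := by linarith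
  have hy : (y j : ℝ) ^ 27 = Q := by
    rw [hQdef]
    unfold y q
    push_cast
    rw [← pow_mul]
    congr 1
    ring
  have h6 : 0 < Q ^ 6 - 1 := by
    have := one_lt_pow₀ hQ (n := 6) (by norm_num)
    linarith
  have h2 : 0 < Q ^ 2 - 1 := by
    have := one_lt_pow₀ hQ (n := 2) (by norm_num)
    linarith
  have e1 : mu j (parD 8 n) = Q ^ 48 * ∑ a ∈ Finset.range (n + 1),
      (cnt j (lev a) : ℝ) * ((Q ^ 8)⁻¹) ^ a := by
    rw [mu_parD, Finset.mul_sum]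
    refine Finset.sum_congr rfl fun a _ => ?_
    have h3 : (y j : ℝ) ^ (27 * (6 * ((8 : ℕ) : ℤ) - ((8 : ℕ) : ℤ) * a)) =
        Q ^ 48 * ((Q ^ 8)⁻¹) ^ a := by
      have h4 : (27 * (6 * ((8 : ℕ) : ℤ) - ((8 : ℕ) : ℤ) * a) : ℤ) =
          ((27 : ℕ) : ℤ) * (((48 : ℕ) : ℤ) - ((8 * a : ℕ) : ℤ)) := by
        push_cast
        ring
      rw [h4, zpow_mul, zpow_natCast, hy, zpow_sub₀ hQ0, zpow_natCast, zpow_natCast, pow_mul,
        inv_pow, div_eq_mul_inv]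
    rw [h3]
    ring
  have hT0 : 0 ≤ (Q ^ 8)⁻¹ := by positivity
  have hT1 : (Q ^ 8)⁻¹ ≤ 1 := inv_le_one_of_one_le₀ (one_le_pow₀ hQ.le)
  obtain ⟨hs1, hs2⟩ := sum_lev j n ((Q ^ 8)⁻¹) hT0 hT1
  have e2 := sum_cube j n ((Q ^ 8)⁻¹)
  rw [← hQdef] at hs2 e2 ⊢
  rw [geom_closed Q hQ n] at e2
  obtain ⟨S, hS⟩ : ∃ S : ℝ, S = (Q ^ 8 - 1) / (Q ^ 2 * (Q ^ 6 - 1)) := ⟨_, rfl⟩
  obtain ⟨c, hc⟩ : ∃ c : ℝ, c = (Q ^ 2 - 1) / (Q ^ 2 * (Q ^ 6 - 1)) := ⟨_, rfl⟩
  obtain ⟨r, hr⟩ : ∃ r : ℝ, r = ((Q ^ 6)⁻¹) ^ n := ⟨_, rfl⟩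
  obtain ⟨P, hP⟩ : ∃ P : ℝ, P = ∑ a ∈ Finset.range (n + 1),
      (cnt j (lev a) : ℝ) * ((Q ^ 8)⁻¹) ^ a := ⟨_, rfl⟩
  rw [← hS, ← hc, ← hr] at e2
  rw [← hP] at hs1 hs2 e1
  rw [e2] at hs1 hs2
  have hc0 : 0 ≤ c := by
    rw [hc]
    positivity
  have hSc : S = 1 + c := by
    rw [hS, hc]
    field_simp
    ring
  have hc1 : c ≤ 1 := by
    rw [hc, div_le_one (by positivity)]
    have h7 : 1 ≤ Q ^ 2 := one_le_pow₀ hQ.le
    have h8 : 1 ≤ Q ^ 6 - 1 := by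
      have h9 : (2 : ℝ) ^ 6 ≤ Q ^ 6 := pow_le_pow_left₀ (by norm_num) hQ2 6
      linarith
    nlinarith
  have hr0 : 0 ≤ r := by
    rw [hr]
    positivity
  have hr1 : r ≤ 1 := by
    rw [hr]
    exact pow_le_one₀ (by positivity) (inv_le_one_of_one_le₀ (one_le_pow₀ hQ.le))
  have hcr : 0 ≤ c * r := mul_nonneg hc0 hr0
  have hcr1 : c * r ≤ r := by nlinarith
  have hcube0 : 0 ≤ S ^ 3 - (S - c * r) ^ 3 := by
    have h7 : 0 ≤ S - c * r := by nlinarith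
    have h8 : (S - c * r) ^ 3 ≤ S ^ 3 := pow_le_pow_left₀ h7 (by linarith) 3
    linarith
  have hcube1 : S ^ 3 - (S - c * r) ^ 3 ≤ 12 * r := by
    have h7 : S ^ 3 - (S - c * r) ^ 3 = (c * r) * (S ^ 2 + S * (S - c * r) + (S - c * r) ^ 2) := by
      ring
    rw [h7]
    have h8 : 0 ≤ S - c * r := by nlinarith
    have h9 : S ≤ 2 := by linarith
    have h10 : 0 ≤ S := by linarith
    have h11 : S ^ 2 + S * (S - c * r) + (S - c * r) ^ 2 ≤ 12 := by nlinarith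
    have h12 : 0 ≤ S ^ 2 + S * (S - c * r) + (S - c * r) ^ 2 := by positivity
    calc (c * r) * (S ^ 2 + S * (S - c * r) + (S - c * r) ^ 2)
        ≤ r * 12 := mul_le_mul hcr1 h11 h12 hr0
      _ = 12 * r := by ring
  have e3 : Q ^ 42 * ((Q ^ 8 - 1) / (Q ^ 6 - 1)) ^ 3 = Q ^ 48 * S ^ 3 := by
    rw [hS]
    field_simp
  rw [e1, e3, ← mul_sub, abs_mul, abs_of_pos (pow_pos hQp 48), mul_assoc, mul_comm (13 : ℝ)]
  refine mul_le_mul_of_nonneg_left ?_ (by positivity)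
  have hrQ : r * Q ^ (2 * n) ≤ 1 := by
    rw [hr, inv_pow, ← pow_mul, inv_mul_le_one₀ (by positivity)]
    exact pow_le_pow_right₀ hQ.le (by omega)
  have htQ : Q ^ (6 * n) * ((Q ^ 8)⁻¹) ^ (n + 1) * Q ^ (2 * n) ≤ 1 := by
    have h7 : Q ^ (6 * n) * ((Q ^ 8)⁻¹) ^ (n + 1) * Q ^ (2 * n) = (Q ^ 8)⁻¹ := by
      rw [inv_pow, ← pow_mul, mul_right_comm, ← pow_add]
      have h8 : 8 * (n + 1) = (6 * n + 2 * n) + 8 := by ring
      rw [h8, pow_add Q (6 * n + 2 * n) 8, mul_inv, ← mul_assoc,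
        mul_inv_cancel₀ (pow_ne_zero _ hQ0), one_mul]
    rw [h7]
    exact hT1
  have habs : |P - S ^ 3| ≤ Q ^ (6 * n) * ((Q ^ 8)⁻¹) ^ (n + 1) + 12 * r := by
    rw [abs_le]
    constructor
    · linarith
    · have h7 : 0 ≤ Q ^ (6 * n) * ((Q ^ 8)⁻¹) ^ (n + 1) := by positivity
      linarith
  calc |P - S ^ 3| * Q ^ (2 * n)
      ≤ (Q ^ (6 * n) * ((Q ^ 8)⁻¹) ^ (n + 1) + 12 * r) * Q ^ (2 * n) :=
        mul_le_mul_of_nonneg_right habs (by positivity)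
    _ = Q ^ (6 * n) * ((Q ^ 8)⁻¹) ^ (n + 1) * Q ^ (2 * n) + 12 * (r * Q ^ (2 * n)) := by ring
    _ ≤ 13 := by linarith

end Pool.Agent.Q34.WR
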