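import Pool.Agent.Q34.WR.Fin

/-!
# The stringy motive is not weakly rational
-/

set_option autoImplicit false

namespace Pool.Agent.Q34.WR

open MvPolynomial Pool.Agent.Helper449.MST

theorem mu_filZ (e : ℕ) (x : FreeAbelianGroup Gen) (hx : x ∈ Fil e) :
    ∃ (C : ℝ) (j₀ : ℕ), ∀ j ≥ j₀, |mu j x| * (y j : ℝ) ^ (27 * e) ≤ C := by
  have h1 : shift (27 * e) x ∈ Fil 0 := by
    have hle : Fil e ≤ (Fil 0).comap (shift (27 * e)) := by
      unfold Fil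
      rw [AddSubgroup.closure_le]
      rintro _ ⟨g, D, h1, h2, rfl⟩
      rw [SetLike.mem_coe, AddSubgroup.mem_comap]
      unfold shift
      rw [FreeAbelianGroup.lift_apply_of]
      refine AddSubgroup.subset_closure ⟨⟨g.n, g.S, g.constr, g.b + 27 * e⟩, D, h1, ?_, rfl⟩
      change 27 * (D : ℤ) + (g.b + 27 * e) ≤ -(27 * 0)
      omega
    exact hle hx
  obtain ⟨C, j₀, h⟩ := mu_fil _ h1
  refine ⟨C, j₀, fun j hj => ?_⟩
  have h2 := h j hj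
  rw [mu_shift, abs_mul, abs_of_nonneg (by positivity)] at h2
  have h3 : (27 * (e : ℤ)) = ((27 * e : ℕ) : ℤ) := by push_cast; rfl
  rw [h3, zpow_natCast, mul_comm] at h2
  exact h2

/-- the approximation of the limit of the point counts -/
theorem approx {s : ℕ → FreeAbelianGroup Gen} {k : ℕ} {x : Fin k → FreeAbelianGroup Gen}
    {M : Fin k → List ℕ} (hM : ∀ i, (M i).length ≤ 2 ∧ ∀ m ∈ M i, 1 ≤ m)
    (hs : s = stringyD 8)
    (h : ∀ e : ℤ, ∃ n₀, ∀ n ≥ n₀,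
      s n - ∑ i, (M i).foldr (fun m z => geo m n z) (x i) ∈ relSubUH ⊔ Fil e) (D : ℕ) :
    ∃ j₀, ∀ j ≥ j₀,
      |(q j : ℝ) ^ 42 * (((q j : ℝ) ^ 8 - 1) / ((q j : ℝ) ^ 6 - 1)) ^ 3 -
        ∑ i, mu j (x i) * ((M i).map fun m => 1 / ((y j : ℝ) ^ m - 1)).prod| *
        (y j : ℝ) ^ D ≤ 1 := by
  choose B hB using fun i => mu_bound (x i)
  obtain ⟨B', hB'⟩ : ∃ B' : ℕ, B' = ∑ i, B i := ⟨_, rfl⟩
  obtain ⟨n₀, hn₀⟩ := h (D + 1 : ℕ)
  obtain ⟨n', hn'⟩ : ∃ n' : ℕ, n' = n₀ + 27 * 48 + D + B' + 1 := ⟨_, rfl⟩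
  have h1 := hn₀ (27 * 8 * n') (by omega)
  have h2 := stringyD_sub 8 (27 * 8 * n') (by norm_num)
  rw [Nat.mul_div_cancel_left n' (by norm_num)] at h2
  obtain ⟨u, hu, v, hv, huv⟩ := AddSubgroup.mem_sup.mp h1
  obtain ⟨j₁, hj₁⟩ := mu_relUH u hu
  obtain ⟨j₂, hj₂⟩ := mu_relUH _ (relSub_le h2)
  obtain ⟨C, j₃, hj₃⟩ := mu_filZ (D + 1) v hv
  obtain ⟨j₄, hj₄⟩ : ∃ j₄ : ℕ, |C| + 13 + 2 * k ≤ j₄ := exists_nat_ge _
  refine ⟨max (max j₁ j₂) (max j₃ j₄), fun j hj => ?_⟩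
  have g1 := hj₁ j ((le_max_left _ _).trans ((le_max_left _ _).trans hj))
  have g2 := hj₂ j ((le_max_right _ _).trans ((le_max_left _ _).trans hj))
  have g3 := hj₃ j ((le_max_left _ _).trans ((le_max_right _ _).trans hj))
  have g4 : j₄ ≤ j := (le_max_right _ _).trans ((le_max_right _ _).trans hj)
  obtain ⟨Y, hY⟩ : ∃ Y, Y = (y j : ℝ) := ⟨_, rfl⟩
  have hY1 : 1 ≤ Y := by
    rw [hY]
    exact_mod_cast y_pos j
  have hYbig : |C| + 13 + 2 * k ≤ Y := by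
    have h3 : (j₄ : ℝ) ≤ y j := by exact_mod_cast g4.trans (j_lt_y j).le
    rw [hY]
    linarith
  have hq : (q j : ℝ) = Y ^ 27 := by
    rw [hY]
    exact_mod_cast (y_pow j).symm
  have g5 := mu_lim j n'
  rw [hq] at g5 ⊢
  rw [← hY] at g3 ⊢
  obtain ⟨X, hX⟩ : ∃ X, X = (Y ^ 27) ^ 42 * (((Y ^ 27) ^ 8 - 1) / ((Y ^ 27) ^ 6 - 1)) ^ 3 :=
    ⟨_, rfl⟩
  rw [← hX] at g5 ⊢
  have hsn : mu j (s (27 * 8 * n')) = mu j (parD 8 n') := by
    rw [map_sub, sub_eq_zero] at g2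
    rw [hs]
    exact g2
  have hdiff : mu j (parD 8 n') - ∑ i, mu j (x i) *
      ((M i).map fun m => (1 - (Y ^ m)⁻¹ ^ (27 * 8 * n')) / (Y ^ m - 1)).prod = mu j v := by
    have h3 := congrArg (mu j) huv
    rw [map_add, g1, zero_add, map_sub, map_sum, hsn] at h3
    rw [h3]
    congr 1
    refine Finset.sum_congr rfl fun i _ => ?_
    rw [mu_fold j _ (M i) (hM i).2, ← hY]
  have hYD : 0 < Y ^ D := by positivity
  -- the three errors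
  have err1 : |X - mu j (parD 8 n')| * Y ^ (D + 1) ≤ 13 := by
    rw [abs_sub_comm] at g5
    have h3 : (Y ^ 27) ^ (2 * n') = (Y ^ 27) ^ 48 * Y ^ (27 * (2 * n' - 48)) := by
      rw [← pow_mul, ← pow_mul, ← pow_add]
      congr 1
      omega
    rw [h3] at g5
    have h4 : |X - mu j (parD 8 n')| * Y ^ (27 * (2 * n' - 48)) ≤ 13 := by
      have h5 : 0 < (Y ^ 27) ^ 48 := by positivity
      have h6 : (|X - mu j (parD 8 n')| * Y ^ (27 * (2 * n' - 48))) * (Y ^ 27) ^ 48 ≤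
          13 * (Y ^ 27) ^ 48 := by
        calc _ = |X - mu j (parD 8 n')| * ((Y ^ 27) ^ 48 * Y ^ (27 * (2 * n' - 48))) := by ring
          _ ≤ _ := g5
      exact le_of_mul_le_mul_right h6 h5
    refine (mul_le_mul_of_nonneg_left ?_ (abs_nonneg _)).trans h4
    exact pow_le_pow_right₀ hY1 (by omega)
  have err2 : |mu j v| * Y ^ (D + 1) ≤ |C| := by
    refine (mul_le_mul_of_nonneg_left ?_ (abs_nonneg _)).trans (g3.trans (le_abs_self C))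
    exact pow_le_pow_right₀ hY1 (by omega)
  have err3 : ∀ i, |mu j (x i) *
      ((M i).map fun m => (1 - (Y ^ m)⁻¹ ^ (27 * 8 * n')) / (Y ^ m - 1)).prod -
      mu j (x i) * ((M i).map fun m => 1 / (Y ^ m - 1)).prod| * Y ^ (D + 1) ≤ 2 := by
    intro i
    have h3 := (prod_err j (27 * 8 * n') (M i) (hM i).2).1
    rw [← hY] at h3
    have h4 := (hB i j).1
    rw [← hY] at h4
    rw [← mul_sub, abs_mul]
    obtain ⟨d, hd⟩ : ∃ d, d = |((M i).map fun m =>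
      (1 - (Y ^ m)⁻¹ ^ (27 * 8 * n')) / (Y ^ m - 1)).prod -
      ((M i).map fun m => 1 / (Y ^ m - 1)).prod| := ⟨_, rfl⟩
    rw [← hd] at h3 ⊢
    have hd0 : 0 ≤ d := by
      rw [hd]
      exact abs_nonneg _
    have hBi : B i ≤ B' := by
      rw [hB']
      exact Finset.single_le_sum (f := B) (fun i _ => Nat.zero_le _) (Finset.mem_univ i)
    have h5 : Y ^ B i * Y ^ (D + 1) ≤ Y ^ (27 * 8 * n') := by
      rw [← pow_add]
      exact pow_le_pow_right₀ hY1 (by omega)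
    have h6 : ((M i).length : ℝ) ≤ 2 := by exact_mod_cast (hM i).1
    calc |mu j (x i)| * d * Y ^ (D + 1) ≤ Y ^ B i * d * Y ^ (D + 1) := by gcongr
      _ = d * (Y ^ B i * Y ^ (D + 1)) := by ring
      _ ≤ d * Y ^ (27 * 8 * n') := by gcongr
      _ ≤ 2 := h3.trans h6
  have hsum : |X - ∑ i, mu j (x i) * ((M i).map fun m => 1 / (Y ^ m - 1)).prod| ≤
      |X - mu j (parD 8 n')| + |mu j v| + ∑ i, |mu j (x i) *
      ((M i).map fun m => (1 - (Y ^ m)⁻¹ ^ (27 * 8 * n')) / (Y ^ m - 1)).prod -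
      mu j (x i) * ((M i).map fun m => 1 / (Y ^ m - 1)).prod| := by
    have h3 : X - ∑ i, mu j (x i) * ((M i).map fun m => 1 / (Y ^ m - 1)).prod =
        (X - mu j (parD 8 n')) + mu j v + ∑ i, (mu j (x i) *
      ((M i).map fun m => (1 - (Y ^ m)⁻¹ ^ (27 * 8 * n')) / (Y ^ m - 1)).prod -
      mu j (x i) * ((M i).map fun m => 1 / (Y ^ m - 1)).prod) := by
      rw [← hdiff, Finset.sum_sub_distrib]
      ring
    rw [h3]
    refine (abs_add_le _ _).trans (add_le_add (abs_add_le _ _) ?_)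
    exact Finset.abs_sum_le_sum_abs _ _
  have htot : |X - ∑ i, mu j (x i) * ((M i).map fun m => 1 / (Y ^ m - 1)).prod| * Y ^ (D + 1) ≤
      Y := by
    refine (mul_le_mul_of_nonneg_right hsum (by positivity)).trans ?_
    rw [add_mul, add_mul, Finset.sum_mul]
    have h4 : ∑ i, |mu j (x i) *
      ((M i).map fun m => (1 - (Y ^ m)⁻¹ ^ (27 * 8 * n')) / (Y ^ m - 1)).prod -
      mu j (x i) * ((M i).map fun m => 1 / (Y ^ m - 1)).prod| * Y ^ (D + 1) ≤ k * 2 := by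
      refine (Finset.sum_le_sum fun i _ => err3 i).trans ?_
      rw [Finset.sum_const, Finset.card_univ, Fintype.card_fin, nsmul_eq_mul]
    linarith
  rw [pow_succ, ← mul_assoc] at htot
  exact le_of_mul_le_mul_right (by rw [one_mul]; exact htot) (by linarith)

/-- The limit is not a finite sum of fractions with at most double poles. -/
theorem not_frac : ¬ FracMod 2 relSubUH (stringyD 8) := by
  rintro ⟨k, x, M, hM, h⟩
  choose B hB using fun i => mu_bound (x i)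
  obtain ⟨B', hB'⟩ : ∃ B' : ℕ, B' = ∑ i, B i := ⟨_, rfl⟩
  obtain ⟨N, hN⟩ : ∃ N : ℕ, N = ∏ i, (M i).prod := ⟨_, rfl⟩
  have hN1 : 1 ≤ N := by
    rw [hN]
    refine Nat.one_le_iff_ne_zero.2 (Finset.prod_ne_zero_iff.2 fun i _ => ?_)
    rw [Ne, List.prod_eq_zero_iff]
    intro h0
    exact absurd ((hM i).2 0 h0) (by norm_num)
  have hdvdN : ∀ i, ∀ m ∈ M i, m ∣ N := by
    intro i m hm
    rw [hN]
    exact (List.dvd_prod hm).trans (Finset.dvd_prod_of_mem _ (Finset.mem_univ i))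
  obtain ⟨D, hD⟩ : ∃ D : ℕ, D = B' + 54 * (3 * N) + 487 := ⟨_, rfl⟩
  obtain ⟨j₀, hj₀⟩ := approx hM rfl h D
  obtain ⟨j, hj⟩ : ∃ j : ℕ, j = max j₀ (N ^ 2 + 1) := ⟨_, rfl⟩
  have h1 := hj₀ j (by rw [hj]; exact le_max_left _ _)
  have hjN : N ^ 2 < q j := by
    have h2 : N ^ 2 + 1 ≤ j := by
      rw [hj]
      exact le_max_right _ _
    have h3 : j < y j := j_lt_y j
    have h4 : y j ≤ q j := by
      rw [← y_pow]
      exact Nat.le_self_pow (by norm_num) _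
    omega
  obtain ⟨Y, hY⟩ : ∃ Y : ℕ, Y = y j := ⟨_, rfl⟩
  have hY2 : 2 ≤ Y := by
    rw [hY]
    unfold y
    calc 2 ≤ 3 ^ 1 := by norm_num
      _ ≤ 3 ^ (2 * j.factorial) := Nat.pow_le_pow_right (by norm_num) (by
        have := Nat.factorial_pos j
        omega)
  have hq : q j = Y ^ 27 := by
    rw [hY]
    exact (y_pow j).symm
  -- the integers
  have hden : ∀ i, ∃ c : ℤ, ((M i).map fun m => 1 / ((Y : ℝ) ^ m - 1)).prod *
      (((Y : ℝ) ^ 27) ^ (3 * N) - 1) ^ 2 = c := by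
    intro i
    have hone : ∀ m, 1 ≤ m → m ∣ N → ∃ c : ℤ,
        1 / ((Y : ℝ) ^ m - 1) * (((Y : ℝ) ^ 27) ^ (3 * N) - 1) = c := by
      intro m hm hmN
      have h2 : (Y : ℤ) ^ m - 1 ∣ ((Y : ℤ) ^ 27) ^ (3 * N) - 1 := by
        obtain ⟨t, ht⟩ := hmN
        have h3 : ((Y : ℤ) ^ 27) ^ (3 * N) = ((Y : ℤ) ^ m) ^ (27 * (3 * t)) := by
          rw [← pow_mul, ← pow_mul, ht]
          congr 1
          ring
        rw [h3]
        have h4 := sub_dvd_pow_sub_pow ((Y : ℤ) ^ m) 1 (27 * (3 * t))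
        rwa [one_pow] at h4
      obtain ⟨c, hc⟩ := h2
      refine ⟨c, ?_⟩
      have h5 : ((Y : ℝ) ^ 27) ^ (3 * N) - 1 = ((Y : ℝ) ^ m - 1) * c := by exact_mod_cast hc
      have h6 : (Y : ℝ) ^ m - 1 ≠ 0 := by
        have h7 : (1 : ℝ) < (Y : ℝ) ^ m := one_lt_pow₀ (by exact_mod_cast hY2) (by omega)
        linarith
      rw [h5]
      field_simp
    obtain ⟨hlen, hpos⟩ := hM i
    have hd := hdvdN i
    obtain ⟨w, hw⟩ : ∃ w : ℤ, ((Y : ℝ) ^ 27) ^ (3 * N) - 1 = w :=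
      ⟨((Y : ℤ) ^ 27) ^ (3 * N) - 1, by push_cast; rfl⟩
    rcases hMi : M i with _ | ⟨m, _ | ⟨m', _ | ⟨m'', l⟩⟩⟩
    · exact ⟨w ^ 2, by rw [List.map_nil, List.prod_nil, one_mul, hw]; push_cast; rfl⟩
    · rw [hMi] at hpos hd
      obtain ⟨c, hc⟩ := hone m (hpos m (by simp)) (hd m (by simp))
      refine ⟨c * w, ?_⟩
      push_cast
      rw [List.map_cons, List.map_nil, List.prod_cons, List.prod_nil, mul_one, pow_two,
        ← mul_assoc, hc, hw]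
    · rw [hMi] at hpos hd
      obtain ⟨c, hc⟩ := hone m (hpos m (by simp)) (hd m (by simp))
      obtain ⟨c', hc'⟩ := hone m' (hpos m' (by simp)) (hd m' (by simp))
      refine ⟨c * c', ?_⟩
      push_cast
      rw [List.map_cons, List.map_cons, List.map_nil, List.prod_cons, List.prod_cons,
        List.prod_nil, mul_one, pow_two, ← hc, ← hc']
      ring
    · rw [hMi] at hlen
      simp only [List.length_cons] at hlen
      omega
  have hnum : ∀ i, ∃ z : ℤ, mu j (x i) * (Y : ℝ) ^ B' = z := by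
    intro i
    obtain ⟨z, hz⟩ := (hB i j).2
    have hBi : B i ≤ B' := by
      rw [hB']
      exact Finset.single_le_sum (f := B) (fun i _ => Nat.zero_le _) (Finset.mem_univ i)
    refine ⟨z * (Y : ℤ) ^ (B' - B i), ?_⟩
    push_cast
    rw [← hz, mul_assoc, hY, ← pow_add, Nat.add_sub_cancel' hBi]
  choose c hc using hden
  choose z hz using hnum
  obtain ⟨I, hI⟩ : ∃ I : ℤ, I = ∑ i, z i * c i := ⟨_, rfl⟩
  obtain ⟨S, hS⟩ : ∃ S : ℝ, S = ∑ i, mu j (x i) *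
      ((M i).map fun m => 1 / ((Y : ℝ) ^ m - 1)).prod := ⟨_, rfl⟩
  have hIS : S * ((Y : ℝ) ^ B' * (((Y : ℝ) ^ 27) ^ (3 * N) - 1) ^ 2) = I := by
    rw [hS, hI, Finset.sum_mul]
    push_cast
    refine Finset.sum_congr rfl fun i _ => ?_
    rw [← hz, ← hc]
    ring
  have hqR : (q j : ℝ) = (Y : ℝ) ^ 27 := by
    rw [hq]
    push_cast
    rfl
  rw [hqR, ← hY, ← hS] at h1
  have h6 : (0 : ℝ) < ((Y : ℝ) ^ 27) ^ 6 - 1 := by
    have h7 : (1 : ℝ) < ((Y : ℝ) ^ 27) ^ 6 := one_lt_pow₀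
      (one_lt_pow₀ (by exact_mod_cast hY2) (by norm_num)) (by norm_num)
    linarith
  obtain ⟨X, hX⟩ : ∃ X : ℝ, X = ((Y : ℝ) ^ 27) ^ 42 *
      ((((Y : ℝ) ^ 27) ^ 8 - 1) / (((Y : ℝ) ^ 27) ^ 6 - 1)) ^ 3 := ⟨_, rfl⟩
  rw [← hX] at h1
  obtain ⟨A, hA⟩ : ∃ A : ℤ, A = (Y : ℤ) ^ B' * ((((Y : ℤ) ^ 27) ^ (3 * N) - 1) ^ 2 *
      (((Y : ℤ) ^ 27) ^ 42 * (((Y : ℤ) ^ 27) ^ 8 - 1) ^ 3)) := ⟨_, rfl⟩
  have hAX : X * ((Y : ℝ) ^ B' * (((Y : ℝ) ^ 27) ^ (3 * N) - 1) ^ 2) *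
      (((Y : ℝ) ^ 27) ^ 6 - 1) ^ 3 = A := by
    rw [hA, hX]
    push_cast
    obtain ⟨w, hw⟩ : ∃ w : ℝ, w = ((Y : ℝ) ^ 27) ^ 6 - 1 := ⟨_, rfl⟩
    obtain ⟨v, hv⟩ : ∃ v : ℝ, v = ((Y : ℝ) ^ 27) ^ 8 - 1 := ⟨_, rfl⟩
    rw [← hw] at h6
    rw [← hw, ← hv, div_pow]
    have h7 : w ^ 3 ≠ 0 := pow_ne_zero 3 h6.ne'
    field_simp
  -- the difference is a small integer
  have hYR : (1 : ℝ) ≤ Y := by
    have : (2 : ℝ) ≤ Y := by exact_mod_cast hY2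
    linarith
  have hY0 : (0 : ℝ) < Y := by linarith
  have hfac : (Y : ℝ) ^ B' * (((Y : ℝ) ^ 27) ^ (3 * N) - 1) ^ 2 *
      (((Y : ℝ) ^ 27) ^ 6 - 1) ^ 3 * Y ≤ (Y : ℝ) ^ D := by
    have h7 : (((Y : ℝ) ^ 27) ^ (3 * N) - 1) ^ 2 ≤ (((Y : ℝ) ^ 27) ^ (3 * N)) ^ 2 := by
      have h8 : (1 : ℝ) ≤ ((Y : ℝ) ^ 27) ^ (3 * N) := one_le_pow₀ (one_le_pow₀ hYR)
      exact pow_le_pow_left₀ (by linarith) (by linarith) 2
    have h9 : (((Y : ℝ) ^ 27) ^ 6 - 1) ^ 3 ≤ (((Y : ℝ) ^ 27) ^ 6) ^ 3 :=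
      pow_le_pow_left₀ h6.le (by linarith) 3
    calc (Y : ℝ) ^ B' * (((Y : ℝ) ^ 27) ^ (3 * N) - 1) ^ 2 * (((Y : ℝ) ^ 27) ^ 6 - 1) ^ 3 * Y
        ≤ (Y : ℝ) ^ B' * (((Y : ℝ) ^ 27) ^ (3 * N)) ^ 2 * (((Y : ℝ) ^ 27) ^ 6) ^ 3 * Y := by
          gcongr
      _ = (Y : ℝ) ^ D := by
          rw [hD, ← pow_mul, ← pow_mul, ← pow_mul, ← pow_mul, ← pow_add, ← pow_add, ← pow_succ]
          congr 1
          ring
  have hdist : |((A - I * (((Y : ℤ) ^ 27) ^ 6 - 1) ^ 3 : ℤ) : ℝ)| < 1 := by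
    have h7 : ((A - I * (((Y : ℤ) ^ 27) ^ 6 - 1) ^ 3 : ℤ) : ℝ) =
        (X - S) * ((Y : ℝ) ^ B' * (((Y : ℝ) ^ 27) ^ (3 * N) - 1) ^ 2 *
          (((Y : ℝ) ^ 27) ^ 6 - 1) ^ 3) := by
      push_cast
      rw [← hAX, ← hIS]
      ring
    obtain ⟨G, hG⟩ : ∃ G : ℝ, G = (Y : ℝ) ^ B' * (((Y : ℝ) ^ 27) ^ (3 * N) - 1) ^ 2 *
          (((Y : ℝ) ^ 27) ^ 6 - 1) ^ 3 := ⟨_, rfl⟩
    rw [← hG] at h7 hfac
    have hG0 : 0 ≤ G := by
      rw [hG]
      positivity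
    rw [h7, abs_mul, abs_of_nonneg hG0]
    have h8 : |X - S| * (G * Y) ≤ 1 :=
      (mul_le_mul_of_nonneg_left hfac (abs_nonneg _)).trans h1
    by_contra hcon
    push Not at hcon
    have h9 : (2 : ℝ) ≤ Y := by exact_mod_cast hY2
    have h10 : (Y : ℝ) ≤ |X - S| * (G * Y) := by
      calc (Y : ℝ) = 1 * Y := (one_mul _).symm
        _ ≤ (|X - S| * G) * Y := mul_le_mul_of_nonneg_right hcon hY0.le
        _ = |X - S| * (G * Y) := by ring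
    linarith
  have hzero : A - I * (((Y : ℤ) ^ 27) ^ 6 - 1) ^ 3 = 0 := by
    have h7 : |A - I * (((Y : ℤ) ^ 27) ^ 6 - 1) ^ 3| < 1 := by exact_mod_cast hdist
    exact Int.abs_lt_one_iff.1 h7
  -- the divisibility
  have hYq : ((3 : ℤ) ^ (54 * j.factorial)) = (Y : ℤ) ^ 27 := by
    have h7 : ((q j : ℕ) : ℤ) = (Y : ℤ) ^ 27 := by
      rw [hq]
      push_cast
      rfl
    rw [← h7]
    unfold q
    push_cast
    rfl
  have hYy : ((3 : ℤ) ^ (2 * j.factorial)) = (Y : ℤ) := by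
    rw [hY]
    unfold y
    push_cast
    rfl
  refine not_dvd (54 * j.factorial) (2 * j.factorial) B' N
    (Nat.mul_pos (by norm_num) (Nat.factorial_pos j)) hN1 ?_ ?_
  · have h7 : ((N ^ 2 : ℕ) : ℤ) < ((q j : ℕ) : ℤ) := by exact_mod_cast hjN
    unfold q at h7
    push_cast at h7
    exact h7
  · rw [hYq, hYy]
    refine ⟨I, ?_⟩
    rw [← hA]
    linear_combination hzero

end Pool.Agent.Q34.WR
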